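import Pool.Agent.R797.KT.Defs

set_option autoImplicit false

namespace Pool.Agent.R797.KT

open Classical

variable {V : Type}

theorem pt_apply (u v : V) (t : ℝ) (w : V) :
    pt u v t w = (1 - t) * (if w = u then 1 else 0) + t * (if w = v then 1 else 0) := rfl

theorem pt_symm (u v : V) (t : ℝ) : pt u v t = pt v u (1 - t) := by
  funext w
  simp only [pt_apply]
  ring

theorem pt_self (u : V) (t : ℝ) : pt u u t = pt u u 0 := by
  funext w
  simp only [pt_apply]
  ring

theorem pt_zero (u v : V) : pt u v 0 = pt u u 0 := by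
  funext w
  simp only [pt_apply]
  ring

theorem pt_one (u v : V) : pt u v 1 = pt v v 0 := by
  rw [pt_symm, sub_self, pt_zero]

theorem continuous_pt (u v : V) : Continuous (fun t : ℝ => pt u v t) := by
  refine continuous_pi fun w => ?_
  simp only [pt_apply]
  fun_prop

theorem pt_left {u v : V} (h : u ≠ v) (t : ℝ) : pt u v t u = 1 - t := by
  simp [pt_apply, h]

theorem pt_right {u v : V} (h : u ≠ v) (t : ℝ) : pt u v t v = t := by
  simp [pt_apply, h.symm]

theorem pt_other {u v w : V} (h1 : w ≠ u) (h2 : w ≠ v) (t : ℝ) : pt u v t w = 0 := by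
  simp [pt_apply, h1, h2]

theorem pt_mem {G : SimpleGraph V} {u v : V} (h : u = v ∨ G.Adj u v) {t : ℝ} (h0 : 0 ≤ t)
    (h1 : t ≤ 1) : pt u v t ∈ carrier G :=
  ⟨u, v, h, t, h0, h1, rfl⟩

theorem vert_mem (G : SimpleGraph V) (u : V) : pt u u 0 ∈ carrier G :=
  pt_mem (Or.inl rfl) le_rfl zero_le_one

/-- the vertex `u` as a point of the carrier -/
noncomputable def vert (G : SimpleGraph V) (u : V) : carrier G := ⟨pt u u 0, vert_mem G u⟩

theorem vert_injective (G : SimpleGraph V) : Function.Injective (vert G) := by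
  intro u v h
  have h1 := congrFun (congrArg Subtype.val h) u
  simp only [vert, pt_apply] at h1
  by_contra hne
  simp [hne] at h1

theorem carrier_compact [Finite V] (G : SimpleGraph V) : IsCompact (carrier G) := by
  have : carrier G = ⋃ p : V × V, (if p.1 = p.2 ∨ G.Adj p.1 p.2 then
      (fun t : ℝ => pt p.1 p.2 t) '' Set.Icc 0 1 else ∅) := by
    ext x
    simp only [Set.mem_iUnion]
    constructor
    · rintro ⟨u, v, h, t, h0, h1, rfl⟩
      refine ⟨(u, v), ?_⟩
      rw [if_pos h]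
      exact ⟨t, ⟨h0, h1⟩, rfl⟩
    · rintro ⟨⟨u, v⟩, hx⟩
      split_ifs at hx with h
      · obtain ⟨t, ⟨h0, h1⟩, rfl⟩ := hx
        exact ⟨u, v, h, t, h0, h1, rfl⟩
      · exact absurd hx (Set.notMem_empty _)
  rw [this]
  refine isCompact_iUnion fun p => ?_
  split_ifs
  · exact isCompact_Icc.image (continuous_pt _ _)
  · exact isCompact_empty

instance [Finite V] (G : SimpleGraph V) : CompactSpace (carrier G) :=
  isCompact_iff_compactSpace.1 (carrier_compact G)

/-- Half-edges: the point at distance `s / 2` from `u` on the edge `uv`. -/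
noncomputable def hp (u v : V) (s : ℝ) : V → ℝ := pt u v (s / 2)

/-- The oriented edges of `G`. -/
abbrev Dt (G : SimpleGraph V) : Type := {p : V × V // G.Adj p.1 p.2}

theorem hp_mem {G : SimpleGraph V} (d : Dt G) {s : ℝ} (h0 : 0 ≤ s) (h1 : s ≤ 1) :
    hp d.1.1 d.1.2 s ∈ carrier G :=
  pt_mem (Or.inr d.2) (by linarith) (by linarith)

theorem continuous_hp (u v : V) : Continuous (fun s : ℝ => hp u v s) :=
  (continuous_pt u v).comp (continuous_id.div_const 2)

theorem hp_zero (u v : V) : hp u v 0 = pt u u 0 := by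
  unfold hp
  rw [zero_div, pt_zero]

/-- every point is on a half-edge, if there are no isolated vertices -/
theorem exists_hp {G : SimpleGraph V} (hG : ∀ v, ∃ w, G.Adj v w) {x : V → ℝ}
    (hx : x ∈ carrier G) : ∃ d : Dt G, ∃ s : ℝ, 0 ≤ s ∧ s ≤ 1 ∧ x = hp d.1.1 d.1.2 s := by
  obtain ⟨u, v, h, t, h0, h1, rfl⟩ := hx
  rcases h with rfl | h
  · obtain ⟨w, hw⟩ := hG u
    refine ⟨⟨(u, w), hw⟩, 0, le_rfl, zero_le_one, ?_⟩
    rw [hp_zero, pt_self]
  · rcases le_total t (1 / 2) with ht | ht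
    · refine ⟨⟨(u, v), h⟩, 2 * t, by linarith, by linarith, ?_⟩
      unfold hp
      congr 1
      ring
    · refine ⟨⟨(v, u), h.symm⟩, 2 * (1 - t), by linarith, by linarith, ?_⟩
      unfold hp
      rw [pt_symm]
      congr 1
      ring

/-- uniqueness of the half-edge coordinates in the interior -/
theorem hp_unique {G : SimpleGraph V} {d d' : Dt G} {s s' : ℝ} (h0 : 0 < s) (h1 : s < 1)
    (_h0' : 0 ≤ s') (h1' : s' ≤ 1) (h : hp d.1.1 d.1.2 s = hp d'.1.1 d'.1.2 s') :
    d = d' ∧ s = s' := by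
  obtain ⟨⟨u, v⟩, huv⟩ := d
  obtain ⟨⟨u', v'⟩, huv'⟩ := d'
  simp only at h huv huv'
  have hne : u ≠ v := huv.ne
  have hne' : u' ≠ v' := huv'.ne
  have e1 : pt u v (s / 2) u = 1 - s / 2 := pt_left hne _
  have e2 : pt u v (s / 2) v = s / 2 := pt_right hne _
  have e3 : pt u' v' (s' / 2) u' = 1 - s' / 2 := pt_left hne' _
  have e4 : pt u' v' (s' / 2) v' = s' / 2 := pt_right hne' _
  unfold hp at h
  have hu : u = u' := by
    by_contra hc
    have e5 := congrFun h u
    rw [e1] at e5
    by_cases hc' : u = v'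
    · subst hc'
      rw [e4] at e5
      linarith
    · rw [pt_other hc hc'] at e5
      linarith
  subst hu
  have hv : v = v' := by
    by_contra hc
    have e5 := congrFun h v
    rw [e2, pt_other hne.symm hc] at e5
    linarith
  subst hv
  refine ⟨rfl, ?_⟩
  rw [h, e4] at e2
  linarith

theorem hp_eq_vert {G : SimpleGraph V} {d : Dt G} {s : ℝ} (h0 : 0 ≤ s) (h1 : s ≤ 1) {u : V}
    (h : hp d.1.1 d.1.2 s = pt u u 0) : s = 0 ∧ d.1.1 = u := by
  obtain ⟨⟨a, b⟩, hab⟩ := d
  simp only at h hab ⊢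
  have e2 : pt a b (s / 2) b = s / 2 := pt_right hab.ne _
  have e1 : pt a b (s / 2) a = 1 - s / 2 := pt_left hab.ne _
  unfold hp at h
  have ha : a = u := by
    by_contra hc
    rw [h, pt_other hc hc] at e1
    linarith
  subst ha
  rw [h, pt_other hab.ne.symm hab.ne.symm] at e2
  exact ⟨by linarith, rfl⟩

end Pool.Agent.R797.KT
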