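import Pool.Agent.R797.KT.Suff

set_option autoImplicit false

/-! The data and the matrix condition are equivalent. -/

namespace Pool.Agent.R797.KT

open Classical Finset

/-- assignment with prescribed bounds -/
theorem assign {E C : Type} (β₀ : E → C) (l h : C → ℕ) (N : Finset C) :
    (∀ c ∈ N, l c ≤ h c) → ∀ X : Finset E, ∑ c ∈ N, l c ≤ X.card → X.card ≤ ∑ c ∈ N, h c →
    ∃ β : E → C, (∀ x ∈ X, β x ∈ N) ∧
      ∀ c ∈ N, l c ≤ (X.filter fun x => β x = c).card ∧ (X.filter fun x => β x = c).card ≤ h c := by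
  induction N using Finset.induction_on with
  | empty =>
    intro _ X _ hX
    have : X = ∅ := Finset.card_eq_zero.1 (by simpa using hX)
    subst this
    exact ⟨β₀, by simp, by simp⟩
  | insert c N hc ih =>
    intro hlh X h1 h2
    rw [Finset.sum_insert hc] at h1 h2
    have hlh' : ∀ c' ∈ N, l c' ≤ h c' := fun c' hc' => hlh c' (Finset.mem_insert_of_mem hc')
    have hs : ∑ c' ∈ N, l c' ≤ ∑ c' ∈ N, h c' := Finset.sum_le_sum hlh'
    have hlc := hlh c (Finset.mem_insert_self _ _)
    obtain ⟨n, hn1, hn2, hn3, hn4, hn5⟩ : ∃ n, l c ≤ n ∧ n ≤ h c ∧ n ≤ X.card ∧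
        ∑ c' ∈ N, l c' ≤ X.card - n ∧ X.card - n ≤ ∑ c' ∈ N, h c' :=
      ⟨max (l c) (X.card - ∑ c' ∈ N, h c'), by omega, by omega, by omega, by omega, by omega⟩
    obtain ⟨Y, hY, hYn⟩ := Finset.exists_subset_card_eq hn3
    have hcard : (X \ Y).card = X.card - n := by rw [Finset.card_sdiff_of_subset hY, hYn]
    obtain ⟨β, hβ1, hβ2⟩ := ih hlh' (X \ Y) (by rw [hcard]; exact hn4) (by rw [hcard]; exact hn5)
    refine ⟨fun x => if x ∈ Y then c else β x, ?_, ?_⟩
    · intro x hx
      show (if x ∈ Y then c else β x) ∈ _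
      split_ifs with h
      · exact Finset.mem_insert_self _ _
      · exact Finset.mem_insert_of_mem (hβ1 x (Finset.mem_sdiff.2 ⟨hx, h⟩))
    · intro c' hc'
      rcases Finset.mem_insert.1 hc' with rfl | hc''
      · have : (X.filter fun x => (if x ∈ Y then c' else β x) = c') = Y := by
          ext x
          rw [Finset.mem_filter]
          constructor
          · rintro ⟨hx, h⟩
            by_contra hxY
            rw [if_neg hxY] at h
            have := hβ1 x (Finset.mem_sdiff.2 ⟨hx, hxY⟩)
            rw [h] at this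
            exact hc this
          · intro hx
            exact ⟨hY hx, if_pos hx⟩
        rw [this, hYn]
        exact ⟨hn1, hn2⟩
      · have hne : c ≠ c' := fun h => hc (h ▸ hc'')
        have : (X.filter fun x => (if x ∈ Y then c else β x) = c') =
            (X \ Y).filter fun x => β x = c' := by
          ext x
          rw [Finset.mem_filter, Finset.mem_filter, Finset.mem_sdiff]
          constructor
          · rintro ⟨hx, h⟩
            by_cases hxY : x ∈ Y
            · rw [if_pos hxY] at h
              exact absurd h hne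
            · rw [if_neg hxY] at h
              exact ⟨⟨hx, hxY⟩, h⟩
          · rintro ⟨⟨hx, hxY⟩, h⟩
            exact ⟨hx, by rw [if_neg hxY]; exact h⟩
        rw [this]
        exact hβ2 c' hc''

section

variable {V W : Type} [Fintype V] [Fintype W] {G : SimpleGraph V} {H : SimpleGraph W} {φ : V → W}

/-- the unoriented edge -/
def und (d : Dt G) : Sym2 V := s(d.1.1, d.1.2)

theorem und_rev (d : Dt G) : und (rev d) = und d := Sym2.eq_swap

theorem und_eq {d d' : Dt G} (h : und d' = und d) : d' = d ∨ d' = rev d := by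
  obtain ⟨⟨u, v⟩, h1⟩ := d
  obtain ⟨⟨u', v'⟩, h2⟩ := d'
  unfold und at h
  simp only [Sym2.eq_iff] at h
  rcases h with ⟨rfl, rfl⟩ | ⟨rfl, rfl⟩
  · exact Or.inl rfl
  · exact Or.inr rfl

theorem two_card (O : Finset (Dt G)) (hO : ∀ d ∈ O, rev d ∈ O) :
    O.card = 2 * (O.image und).card := by
  rw [Finset.card_eq_sum_card_image und O, mul_comm]
  refine Finset.sum_const_nat fun x hx => ?_
  obtain ⟨d, hd, rfl⟩ := Finset.mem_image.1 hx
  have : O.filter (fun d' => und d' = und d) = {d, rev d} := by
    ext d'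
    simp only [Finset.mem_filter, Finset.mem_insert, Finset.mem_singleton]
    constructor
    · rintro ⟨-, h⟩
      exact und_eq h
    · rintro (rfl | rfl)
      · exact ⟨hd, rfl⟩
      · exact ⟨hO d hd, und_rev d⟩
  rw [this, Finset.card_pair (rev_ne d).symm]

theorem quotMatrix_apply (a c : W) : quotMatrix G φ a c =
    (univ.filter fun d : Dt G => φ d.1.1 = a ∧ φ d.1.2 = c).card := by
  unfold quotMatrix mapMatrix
  rw [Matrix.mul_apply]
  simp only [Matrix.mul_apply, Matrix.transpose_apply, SimpleGraph.adjMatrix_apply]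
  have h1 : ∀ v, (∑ u, (if φ u = a then 1 else 0) * (if G.Adj u v then 1 else 0)) *
      (if φ v = c then 1 else 0) = ∑ u, (if (G.Adj u v ∧ φ u = a ∧ φ v = c) then 1 else 0) := by
    intro v
    rw [Finset.sum_mul]
    refine Finset.sum_congr rfl fun u _ => ?_
    by_cases h1 : φ u = a <;> by_cases h2 : G.Adj u v <;> by_cases h3 : φ v = c <;> simp [h1, h2, h3]
  rw [Finset.sum_congr rfl fun v _ => h1 v, Finset.sum_comm, ← Finset.sum_product',
    ← Finset.card_filter]
  symm
  refine Finset.card_bij (fun (d : Dt G) _ => d.1) ?_ ?_ ?_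
  · intro d hd
    rw [Finset.mem_filter] at hd ⊢
    exact ⟨Finset.mem_product.2 ⟨mem_univ _, mem_univ _⟩, d.2, hd.2⟩
  · intro d _ d' _ h
    exact Subtype.ext h
  · rintro ⟨u, v⟩ h
    rw [Finset.mem_filter] at h
    exact ⟨⟨(u, v), h.2.1⟩, Finset.mem_filter.2 ⟨mem_univ _, h.2.2⟩, rfl⟩

theorem mapMatrix_sum (a : W) : ∑ v, mapMatrix φ v a = {v | φ v = a}.ncard := by
  unfold mapMatrix
  rw [← Finset.card_filter, ← Set.ncard_coe_finset]
  congr 1
  ext v
  simp

theorem ncard_dart (p : Dt G → Prop) [DecidablePred p] :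
    {d : Dt G | p d}.ncard = (univ.filter p).card := by
  rw [← Set.ncard_coe_finset]
  congr 1
  ext d
  simp

theorem rowSum (a : W) : ∑ c, quotMatrix G φ a c =
    (univ.filter fun d : Dt G => φ d.1.1 = a).card := by
  rw [Finset.card_eq_sum_card_fiberwise (f := fun d : Dt G => φ d.1.2) (t := univ)
    (fun d _ => mem_univ _)]
  refine Finset.sum_congr rfl fun c _ => ?_
  rw [quotMatrix_apply, Finset.filter_filter]

theorem condition_of_data {k : ℕ} {b : Dt G → W} (hD : Data G H k φ b) :
    MatrixCondition k G H φ := by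
  -- splitting of the oriented edges over `(a, c)`
  have hsplit : ∀ a c, H.Adj a c → (univ.filter fun d : Dt G => φ d.1.1 = a ∧ b d = c).card =
      quotMatrix G φ a c +
        (univ.filter fun d : Dt G => (φ d.1.1 = a ∧ φ d.1.2 = a) ∧ b d = c).card := by
    intro a c hac
    rw [quotMatrix_apply, ← Finset.card_union_of_disjoint]
    · congr 1
      ext d
      simp only [mem_filter, mem_univ, true_and, mem_union]
      constructor
      · rintro ⟨h1, h2⟩
        by_cases h3 : φ d.1.1 = φ d.1.2
        · exact Or.inr ⟨⟨h1, h3 ▸ h1⟩, h2⟩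
        · exact Or.inl ⟨h1, by rw [← hD.cross d h3]; exact h2⟩
      · rintro (⟨h1, h2⟩ | ⟨⟨h1, h2⟩, h3⟩)
        · refine ⟨h1, ?_⟩
          rw [hD.cross d (by rw [h1, h2]; exact hac.ne)]
          exact h2
        · exact ⟨h1, h3⟩
    · rw [Finset.disjoint_left]
      intro d h1 h2
      rw [mem_filter] at h1 h2
      exact hac.ne (h2.2.1.2.symm.trans h1.2.2)
  have heven : ∀ a c, ∃ m, (univ.filter fun d : Dt G => (φ d.1.1 = a ∧ φ d.1.2 = a) ∧
      b d = c).card = 2 * m := by
    intro a c
    refine ⟨_, two_card _ ?_⟩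
    rintro ⟨⟨u, v⟩, huv⟩ hd
    rw [mem_filter] at hd ⊢
    refine ⟨mem_univ _, ⟨hd.2.1.2, hd.2.1.1⟩, ?_⟩
    rw [← hd.2.2]
    exact hD.symm u v huv (hd.2.1.1.trans hd.2.1.2.symm)
  have hle : ∀ a c, H.Adj a c → (univ.filter fun d : Dt G => φ d.1.1 = a ∧ b d = c).card ≤ k :=
    fun a c h => (ncard_dart (fun d : Dt G => φ d.1.1 = a ∧ b d = c)).symm.trans_le (hD.le a c h)
  have hpos : ∀ a c, H.Adj a c → 1 ≤ (univ.filter fun d : Dt G => φ d.1.1 = a ∧ b d = c).card :=
    fun a c h => (hD.pos a c h).trans_eq (ncard_dart (fun d : Dt G => φ d.1.1 = a ∧ b d = c))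
  have hpar : ∀ a c, H.Adj a c →
      (univ.filter fun d : Dt G => φ d.1.1 = a ∧ b d = c).card % 2 = k % 2 :=
    fun a c h => by
      have h1 := ncard_dart (fun d : Dt G => φ d.1.1 = a ∧ b d = c)
      have h2 := hD.par a c h
      rw [h1] at h2
      exact h2
  refine ⟨fun a => by rw [mapMatrix_sum]; exact hD.fib a, ?_, ?_, ?_⟩
  · intro a c hne hnadj
    rw [quotMatrix_apply, Finset.card_eq_zero, Finset.filter_eq_empty_iff]
    rintro d _ ⟨h1, h2⟩
    have h3 := hD.adj d
    rw [hD.cross d (by rw [h1, h2]; exact hne), h1, h2] at h3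
    exact hnadj h3
  · intro a c hac
    have h1 := hsplit a c hac
    obtain ⟨m, hm⟩ := heven a c
    have h2 := hle a c hac
    have h3 := hpar a c hac
    omega
  · intro a
    constructor
    · have h1 : quotMatrix G φ a a = ∑ c ∈ univ.filter (fun c => H.Adj a c),
          (univ.filter fun d : Dt G => (φ d.1.1 = a ∧ φ d.1.2 = a) ∧ b d = c).card := by
        rw [quotMatrix_apply, Finset.card_eq_sum_card_fiberwise (f := b)
          (t := univ.filter fun c => H.Adj a c)]
        · refine Finset.sum_congr rfl fun c _ => ?_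
          rw [Finset.filter_filter]
        · intro d hd
          have hd' := (mem_filter.1 (Finset.mem_coe.1 hd)).2
          have h2 := hD.adj d
          rw [hd'.1] at h2
          exact Finset.mem_coe.2 (mem_filter.2 ⟨mem_univ _, h2⟩)
      rw [h1]
      have h2 : ∀ c ∈ univ.filter (fun c => H.Adj a c),
          (if quotMatrix G φ a c = 0 then 2 else 0) ≤
          (univ.filter fun d : Dt G => (φ d.1.1 = a ∧ φ d.1.2 = a) ∧ b d = c).card := by
        intro c hc
        have hac := (mem_filter.1 hc).2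
        split_ifs with h3
        · have h4 := hsplit a c hac
          obtain ⟨m, hm⟩ := heven a c
          have h5 := hpos a c hac
          omega
        · exact Nat.zero_le _
      refine le_trans ?_ (Finset.sum_le_sum h2)
      rw [← Finset.sum_filter, Finset.filter_filter, Finset.sum_const, smul_eq_mul, mul_comm]
    · rw [rowSum, Finset.card_eq_sum_card_fiberwise (f := b) (t := univ.filter fun c => H.Adj a c)]
      · have h1 : ∀ c ∈ univ.filter (fun c => H.Adj a c),
            ((univ.filter fun d : Dt G => φ d.1.1 = a).filter fun d => b d = c).card ≤ k := by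
          intro c hc
          rw [Finset.filter_filter]
          exact hle a c (mem_filter.1 hc).2
        refine (Finset.sum_le_sum h1).trans ?_
        rw [Finset.sum_const, smul_eq_mul, mul_comm]
        refine Nat.mul_le_mul_left k (le_of_eq ?_)
        rw [← SimpleGraph.card_neighborFinset_eq_degree]
        congr 1
        ext c
        simp
      · intro d hd
        have hd' := (mem_filter.1 (Finset.mem_coe.1 hd)).2
        have h2 := hD.adj d
        rw [hd'] at h2
        exact Finset.mem_coe.2 (mem_filter.2 ⟨mem_univ _, h2⟩)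

theorem data_of_condition {k : ℕ} (hk : 1 ≤ k) (hM : MatrixCondition k G H φ) :
    ∃ b : Dt G → W, Data G H k φ b := by
  obtain ⟨hfib, hzero, hadj, hrow⟩ := hM
  -- inside edges
  let I : W → Finset (Dt G) := fun a => univ.filter fun d => φ d.1.1 = a ∧ φ d.1.2 = a
  have hI : ∀ a, quotMatrix G φ a a = 2 * ((I a).image und).card := by
    intro a
    rw [quotMatrix_apply]
    refine two_card (I a) ?_
    intro d hd
    rw [mem_filter] at hd ⊢
    exact ⟨mem_univ _, hd.2.2, hd.2.1⟩
  have hass : ∀ a, ∃ β : Sym2 V → W, (∀ x ∈ (I a).image und, H.Adj a (β x)) ∧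
      ∀ c, H.Adj a c → (if quotMatrix G φ a c = 0 then 1 else 0) ≤
        (((I a).image und).filter fun x => β x = c).card ∧
        (((I a).image und).filter fun x => β x = c).card ≤ (k - quotMatrix G φ a c) / 2 := by
    intro a
    obtain ⟨h1, h2⟩ := hrow a
    have hdeg : H.degree a = (univ.filter fun c => H.Adj a c).card := by
      rw [← SimpleGraph.card_neighborFinset_eq_degree]
      congr 1
      ext c
      simp
    have hsum : ∑ c, quotMatrix G φ a c = quotMatrix G φ a a +
        ∑ c ∈ univ.filter (fun c => H.Adj a c), quotMatrix G φ a c := by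
      rw [← Finset.add_sum_erase _ _ (mem_univ a)]
      congr 1
      symm
      refine Finset.sum_subset ?_ ?_
      · intro c hc
        rw [mem_filter] at hc
        exact mem_erase.2 ⟨hc.2.ne.symm, mem_univ _⟩
      · intro c hc hc'
        rw [mem_filter] at hc'
        refine hzero a c (Ne.symm (mem_erase.1 hc).1) fun h => hc' ⟨mem_univ _, h⟩
    have hhalf : 2 * ∑ c ∈ univ.filter (fun c => H.Adj a c), (k - quotMatrix G φ a c) / 2 +
        ∑ c ∈ univ.filter (fun c => H.Adj a c), quotMatrix G φ a c = k * H.degree a := by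
      rw [Finset.mul_sum, ← Finset.sum_add_distrib, hdeg, mul_comm k, ← smul_eq_mul,
        ← Finset.sum_const]
      refine Finset.sum_congr rfl fun c hc => ?_
      obtain ⟨h3, h4⟩ := hadj a c (mem_filter.1 hc).2
      omega
    obtain ⟨β, hβ1, hβ2⟩ := assign (E := Sym2 V) (C := W) (fun _ => a)
      (fun c => if quotMatrix G φ a c = 0 then 1 else 0) (fun c => (k - quotMatrix G φ a c) / 2)
      (univ.filter fun c => H.Adj a c) (by
        intro c hc
        obtain ⟨h3, h4⟩ := hadj a c (mem_filter.1 hc).2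
        show (if quotMatrix G φ a c = 0 then 1 else 0) ≤ (k - quotMatrix G φ a c) / 2
        split_ifs with h5
        · omega
        · exact Nat.zero_le _) ((I a).image und) (by
        rw [← Finset.sum_filter, Finset.filter_filter, Finset.sum_const, smul_eq_mul, mul_one]
        have := hI a
        omega) (by
        have := hI a
        omega)
    refine ⟨β, fun x hx => (mem_filter.1 (hβ1 x hx)).2, fun c hc => hβ2 c ?_⟩
    exact mem_filter.2 ⟨mem_univ _, hc⟩
  choose β hβ1 hβ2 using hass
  let b : Dt G → W := fun d => if φ d.1.1 = φ d.1.2 then β (φ d.1.1) (und d) else φ d.1.2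
  have hb1 : ∀ d : Dt G, φ d.1.1 = φ d.1.2 → b d = β (φ d.1.1) (und d) := fun d h => if_pos h
  have hb2 : ∀ d : Dt G, φ d.1.1 ≠ φ d.1.2 → b d = φ d.1.2 := fun d h => if_neg h
  have hD : ∀ a c, H.Adj a c → {d : Dt G | φ d.1.1 = a ∧ b d = c}.ncard =
      quotMatrix G φ a c + 2 * (((I a).image und).filter fun x => β a x = c).card := by
    intro a c hac
    have h1 : (univ.filter fun d : Dt G => φ d.1.1 = a ∧ b d = c) =
        (univ.filter fun d : Dt G => φ d.1.1 = a ∧ φ d.1.2 = c) ∪
        ((I a).filter fun d => β a (und d) = c) := by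
      ext d
      simp only [mem_filter, mem_univ, true_and, mem_union, I]
      constructor
      · rintro ⟨h1, h2⟩
        by_cases h3 : φ d.1.1 = φ d.1.2
        · right
          rw [hb1 d h3, h1] at h2
          exact ⟨⟨h1, h3 ▸ h1⟩, h2⟩
        · left
          rw [hb2 d h3] at h2
          exact ⟨h1, h2⟩
      · rintro (⟨h1, h2⟩ | ⟨⟨h1, h2⟩, h3⟩)
        · refine ⟨h1, ?_⟩
          rw [hb2 d (by rw [h1, h2]; exact hac.ne)]
          exact h2
        · refine ⟨h1, ?_⟩
          rw [hb1 d (by rw [h1, h2]), h1]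
          exact h3
    have h0 := ncard_dart (fun d : Dt G => φ d.1.1 = a ∧ b d = c)
    rw [h0, h1, Finset.card_union_of_disjoint, ← quotMatrix_apply]
    · congr 1
      rw [two_card]
      · congr 2
        ext x
        simp only [mem_image, mem_filter]
        constructor
        · rintro ⟨d, ⟨h2, h3⟩, rfl⟩
          exact ⟨⟨d, h2, rfl⟩, h3⟩
        · rintro ⟨⟨d, h2, rfl⟩, h3⟩
          exact ⟨d, ⟨h2, h3⟩, rfl⟩
      · intro d hd
        simp only [mem_filter, mem_univ, true_and, I] at hd ⊢
        exact ⟨⟨hd.1.2, hd.1.1⟩, by rw [und_rev]; exact hd.2⟩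
    · rw [Finset.disjoint_left]
      intro d h2 h3
      simp only [mem_filter, mem_univ, true_and, I] at h2 h3
      exact hac.ne (h3.1.2.symm.trans h2.2)
  refine ⟨b, ?_, hb2, ?_, fun a => by rw [← mapMatrix_sum]; exact hfib a, ?_, ?_, ?_⟩
  · intro d
    by_cases h : φ d.1.1 = φ d.1.2
    · rw [hb1 d h]
      refine hβ1 _ _ (mem_image.2 ⟨d, mem_filter.2 ⟨mem_univ _, rfl, h.symm⟩, rfl⟩)
    · rw [hb2 d h]
      by_contra hcon
      have h1 := hzero _ _ h hcon
      rw [quotMatrix_apply, Finset.card_eq_zero, Finset.filter_eq_empty_iff] at h1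
      exact h1 (mem_univ d) ⟨rfl, rfl⟩
  · intro u v h huv
    rw [hb1 ⟨(v, u), h.symm⟩ huv.symm, hb1 ⟨(u, v), h⟩ huv]
    show β (φ v) (und (rev ⟨(u, v), h⟩)) = β (φ u) (und ⟨(u, v), h⟩)
    rw [und_rev, huv]
  · intro a c hac
    rw [hD a c hac]
    have h1 := (hβ2 a c hac).1
    split_ifs at h1 with h2
    · omega
    · omega
  · intro a c hac
    rw [hD a c hac]
    have h1 := (hβ2 a c hac).2
    have h2 := (hadj a c hac).1
    omega
  · intro a c hac
    rw [hD a c hac]
    have h2 := (hadj a c hac).2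
    omega

end

end Pool.Agent.R797.KT
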