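import Mathlib

set_option autoImplicit false

/-!
# Topological graphs, subdivisions and the matrix condition for `k`-to-1 maps

Every non-degenerate finite connected topological graph is the space `carrier G` of a finite
connected simple graph `G` with at least two vertices (subdivide the edges if there are multiple
edges).
-/

namespace Pool.Agent.R797.KT

open Classical in
/-- The point `(1 - t) u + t v` of the segment between the basis vectors `u` and `v`
of `V → ℝ`. -/
noncomputable def pt {V : Type} (u v : V) (t : ℝ) : V → ℝ :=
  fun w => (1 - t) * (if w = u then 1 else 0) + t * (if w = v then 1 else 0)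

/-- The topological graph defined by a simple graph `G`: every vertex is replaced by a basis
vector of `V → ℝ` and every edge by the segment between the basis vectors of its end points. It
carries the subspace topology. -/
def carrier {V : Type} (G : SimpleGraph V) : Set (V → ℝ) :=
  {x | ∃ u v : V, (u = v ∨ G.Adj u v) ∧ ∃ t : ℝ, 0 ≤ t ∧ t ≤ 1 ∧ x = pt u v t}

/-- The graph obtained from `G` by subdividing the edge `uv` once. The new vertex is `none`, it is
adjacent to `u` and to `v`, and the edge `uv` is removed. -/
def subdivide {V : Type} (G : SimpleGraph V) (u v : V) : SimpleGraph (Option V) where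
  Adj
    | some x, some y => G.Adj x y ∧ ¬ (x = u ∧ y = v) ∧ ¬ (x = v ∧ y = u)
    | some x, none => x = u ∨ x = v
    | none, some y => y = u ∨ y = v
    | none, none => False
  symm := ⟨by
    rintro (_ | x) (_ | y) h
    · exact h
    · exact h
    · exact h
    · exact ⟨h.1.symm, fun h' => h.2.2 ⟨h'.2, h'.1⟩, fun h' => h.2.1 ⟨h'.2, h'.1⟩⟩⟩
  loopless := ⟨by
    rintro (_ | x) h
    · exact h
    · exact G.loopless.irrefl x h.1⟩

/-- `IsSubdivision n V G V' G'`: the graph `G'` on `V'` is (isomorphic to) a graph obtained from
the graph `G` on `V` by `n` successive subdivisions of an edge. -/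
inductive IsSubdivision : ℕ → (V : Type) → SimpleGraph V → (V' : Type) → SimpleGraph V' → Prop
  | iso {V V' : Type} {G : SimpleGraph V} {G' : SimpleGraph V'} (e : G ≃g G') :
      IsSubdivision 0 V G V' G'
  | step {V V' : Type} {G : SimpleGraph V} {G' : SimpleGraph V'} {n : ℕ} (u v : V)
      (h : G.Adj u v) (h' : IsSubdivision n (Option V) (subdivide G u v) V' G') :
      IsSubdivision (n + 1) V G V' G'

open Classical in
/-- The 0-1 matrix of a map `φ` between the vertex sets, with rows indexed by the vertices of the
domain: the entry at `(v, a)` is `1` if `φ v = a` and `0` otherwise. -/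
noncomputable def mapMatrix {V W : Type} (φ : V → W) : Matrix V W ℕ :=
  fun v a => if φ v = a then 1 else 0

open Classical in
/-- The matrix `Φᵀ A Φ`, where `A` is the adjacency matrix of `G` and `Φ` the matrix of `φ`. For
`a ≠ c` its entry at `(a, c)` is the number of edges of `G` between `φ⁻¹(a)` and `φ⁻¹(c)`, and its
entry at `(a, a)` is twice the number of edges inside `φ⁻¹(a)`. -/
noncomputable def quotMatrix {V W : Type} [Fintype V] (G : SimpleGraph V) (φ : V → W) :
    Matrix W W ℕ :=
  (mapMatrix φ).transpose * G.adjMatrix ℕ * mapMatrix φ

open Classical in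
/-- The matrix condition for a map `φ` between the vertex sets of two graphs `G` and `H`. With `Φ`
the matrix of `φ` and `M = Φᵀ A Φ`: the column sums of `Φ` are `k`; `M a c` vanishes for distinct
non-adjacent `a`, `c`; for adjacent `a`, `c` it is at most `k` and congruent to `k` modulo `2`; for
every `a` the diagonal entry `M a a` is at least twice the number of the neighbours `c` of `a` with
`M a c = 0`, and the sum of the row `a` of `M` is at most `k` times the degree of `a`. -/
def MatrixCondition {V W : Type} [Fintype V] [Fintype W] (k : ℕ) (G : SimpleGraph V)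
    (H : SimpleGraph W) (φ : V → W) : Prop :=
  (∀ a, ∑ v, mapMatrix φ v a = k) ∧
  (∀ a c, a ≠ c → ¬ H.Adj a c → quotMatrix G φ a c = 0) ∧
  (∀ a c, H.Adj a c → quotMatrix G φ a c ≤ k ∧ quotMatrix G φ a c % 2 = k % 2) ∧
  ∀ a, 2 * (Finset.univ.filter fun c => H.Adj a c ∧ quotMatrix G φ a c = 0).card ≤
      quotMatrix G φ a a ∧
    ∑ c, quotMatrix G φ a c ≤ k * H.degree a

end Pool.Agent.R797.KT
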