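import Mathlib

set_option autoImplicit false

/-!
The wild path: for every `w` a continuous map `P` of `[0, 1]` to itself with `P⁻¹(0) = {0}`,
`P 1 = 1`, for which every level in `(0, 1)` has exactly `2 w + 1` preimages, and the level `1` has
exactly `w` preimages different from `1`.
-/

namespace Pool.Agent.R797.KT

/-- linear interpolation of a sequence -/
noncomputable def interp (a : ℕ → ℝ) (y : ℝ) : ℝ :=
  a ⌊y⌋₊ + (y - ⌊y⌋₊) * (a (⌊y⌋₊ + 1) - a ⌊y⌋₊)

theorem interp_of_mem (a : ℕ → ℝ) (n : ℕ) {y : ℝ} (h0 : (n : ℝ) ≤ y) (h1 : y < n + 1) :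
    interp a y = a n + (y - n) * (a (n + 1) - a n) := by
  have h : ⌊y⌋₊ = n := (Nat.floor_eq_iff (le_trans (Nat.cast_nonneg n) h0)).2 ⟨h0, h1⟩
  unfold interp
  rw [h]

theorem interp_natCast (a : ℕ → ℝ) (n : ℕ) : interp a n = a n := by
  rw [interp_of_mem a n le_rfl (by linarith)]
  ring

theorem interp_of_mem' (a : ℕ → ℝ) (n : ℕ) {y : ℝ} (h0 : (n : ℝ) ≤ y) (h1 : y ≤ n + 1) :
    interp a y = a n + (y - n) * (a (n + 1) - a n) := by
  rcases h1.lt_or_eq with h1 | rfl
  · exact interp_of_mem a n h0 h1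
  · have : ((n : ℝ) + 1) = ((n + 1 : ℕ) : ℝ) := by push_cast; ring
    rw [this, interp_natCast]
    push_cast
    ring

theorem interp_neg (a : ℕ → ℝ) {y : ℝ} (h1 : y ≤ 1) :
    interp a y = a 0 + y * (a 1 - a 0) := by
  rcases le_total 0 y with h0 | h0
  · have := interp_of_mem' a 0 (y := y) (by simpa using h0) (by simpa using h1)
    rw [this]
    simp
  · unfold interp
    rw [Nat.floor_of_nonpos h0]
    simp

theorem continuous_interp (a : ℕ → ℝ) : Continuous (interp a) := by
  have key : ∀ n : ℕ, ContinuousOn (interp a) (Set.Iic ((n : ℝ) + 1)) := by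
    intro n
    induction n with
    | zero =>
      have h : Set.EqOn (interp a) (fun y => a 0 + y * (a 1 - a 0)) (Set.Iic (((0 : ℕ) : ℝ) + 1)) :=
        fun y hy => interp_neg a (by simpa using hy)
      refine ContinuousOn.congr ?_ h
      fun_prop
    | succ n ih =>
      have hu : Set.Iic (((n + 1 : ℕ) : ℝ) + 1) =
          Set.Iic ((n : ℝ) + 1) ∪ Set.Icc (((n + 1 : ℕ) : ℝ)) (((n + 1 : ℕ) : ℝ) + 1) := by
        push_cast
        ext y
        simp only [Set.mem_Iic, Set.mem_union, Set.mem_Icc]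
        constructor
        · intro h
          rcases le_total y ((n : ℝ) + 1) with h' | h'
          · exact Or.inl h'
          · exact Or.inr ⟨h', h⟩
        · rintro (h | h)
          · linarith
          · exact h.2
      rw [hu]
      refine ContinuousOn.union_of_isClosed ih ?_ isClosed_Iic isClosed_Icc
      have h : Set.EqOn (interp a) (fun y => a (n + 1) + (y - ((n + 1 : ℕ) : ℝ)) *
          (a (n + 1 + 1) - a (n + 1))) (Set.Icc (((n + 1 : ℕ) : ℝ)) (((n + 1 : ℕ) : ℝ) + 1)) :=
        fun y hy => interp_of_mem' a (n + 1) hy.1 hy.2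
      refine ContinuousOn.congr ?_ h
      fun_prop
  rw [continuous_iff_continuousAt]
  intro y
  obtain ⟨n, hn⟩ := exists_nat_gt y
  exact (key n).continuousAt (Iic_mem_nhds (by linarith))

/-- counting the solutions of `interp a y = q` -/
theorem interp_count (a : ℕ → ℝ) (q : ℝ) (S : Finset ℕ)
    (hS : ∀ n, n ∈ S ↔ (a n ≤ q ∧ q < a (n + 1)) ∨ (a (n + 1) < q ∧ q ≤ a n))
    (ha : ∀ n, a n ≠ a (n + 1)) :
    {y : ℝ | 0 ≤ y ∧ interp a y = q}.Finite ∧
      {y : ℝ | 0 ≤ y ∧ interp a y = q}.ncard = S.card := by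
  let Y : ℕ → ℝ := fun n => n + (q - a n) / (a (n + 1) - a n)
  have hY : ∀ n ∈ S, 0 ≤ (q - a n) / (a (n + 1) - a n) ∧ (q - a n) / (a (n + 1) - a n) < 1 := by
    intro n hn
    rcases (hS n).1 hn with ⟨h1, h2⟩ | ⟨h1, h2⟩
    · have h3 : 0 < a (n + 1) - a n := by linarith
      exact ⟨div_nonneg (by linarith) h3.le, (div_lt_one h3).2 (by linarith)⟩
    · have h3 : a (n + 1) - a n < 0 := by linarith
      exact ⟨div_nonneg_of_nonpos (by linarith) h3.le, (div_lt_one_of_neg h3).2 (by linarith)⟩
  have hset : {y : ℝ | 0 ≤ y ∧ interp a y = q} = Y '' S := by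
    ext y
    simp only [Set.mem_ofPred_eq, Set.mem_image, Finset.mem_coe]
    constructor
    · rintro ⟨h0, h1⟩
      have hf1 : ((⌊y⌋₊ : ℕ) : ℝ) ≤ y := Nat.floor_le h0
      have hf2 : y < (⌊y⌋₊ : ℕ) + 1 := Nat.lt_floor_add_one y
      rw [interp_of_mem a ⌊y⌋₊ hf1 hf2] at h1
      refine ⟨⌊y⌋₊, ?_, ?_⟩
      · rw [hS]
        rcases lt_or_gt_of_ne (ha ⌊y⌋₊) with h | h
        · left
          constructor
          · nlinarith
          · nlinarith
        · right
          constructor
          · nlinarith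
          · nlinarith
      · simp only [Y]
        have h3 : a (⌊y⌋₊ + 1) - a ⌊y⌋₊ ≠ 0 := sub_ne_zero.2 (ha _).symm
        have h4 : q - a ⌊y⌋₊ = (y - ⌊y⌋₊) * (a (⌊y⌋₊ + 1) - a ⌊y⌋₊) := by linarith
        rw [h4, mul_div_cancel_right₀ _ h3]
        ring
    · rintro ⟨n, hn, rfl⟩
      obtain ⟨h1, h2⟩ := hY n hn
      have hn0 : (0 : ℝ) ≤ n := Nat.cast_nonneg n
      refine ⟨by positivity, ?_⟩
      have h3 : a (n + 1) - a n ≠ 0 := sub_ne_zero.2 (ha _).symm
      simp only [Y]
      rw [interp_of_mem a n (by linarith) (by linarith), add_sub_cancel_left,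
        div_mul_cancel₀ _ h3]
      ring
  have hinj : Set.InjOn Y S := by
    intro n hn m hm h
    have h1 := hY n hn
    have h2 := hY m hm
    simp only [Y] at h
    have h3 : ((n : ℝ) < m + 1) ∧ ((m : ℝ) < n + 1) := ⟨by linarith, by linarith⟩
    have h4 : n < m + 1 := by exact_mod_cast h3.1
    have h5 : m < n + 1 := by exact_mod_cast h3.2
    omega
  rw [hset]
  exact ⟨S.finite_toSet.image _, by rw [hinj.ncard_image, Set.ncard_coe_finset]⟩

/-- the node sequence of the zigzag -/
def node (w : ℕ) (n : ℕ) : ℕ := if n % 2 = 0 then n / 2 - w else n / 2 + 1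

theorem node_even (w j : ℕ) : node w (2 * j) = j - w := by
  unfold node
  rw [if_pos (by omega)]
  omega

theorem node_odd (w j : ℕ) : node w (2 * j + 1) = j + 1 := by
  unfold node
  rw [if_neg (by omega)]
  omega

theorem node_ne {w : ℕ} (hw : 1 ≤ w) (n : ℕ) : node w n ≠ node w (n + 1) := by
  unfold node
  split_ifs <;> omega

theorem node_ge (w n : ℕ) : (n : ℝ) / 2 - w ≤ node w n := by
  have h : n ≤ 2 * node w n + 2 * w := by
    unfold node
    split_ifs <;> omega
  have h' : (n : ℝ) ≤ 2 * node w n + 2 * w := by exact_mod_cast h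
  linarith

/-- the zigzag -/
noncomputable def Q (w : ℕ) : ℝ → ℝ := interp (fun n => (node w n : ℝ))

theorem Q_nonneg (w : ℕ) {y : ℝ} (h0 : 0 ≤ y) : 0 ≤ Q w y := by
  have hf1 : ((⌊y⌋₊ : ℕ) : ℝ) ≤ y := Nat.floor_le h0
  have hf2 : y < (⌊y⌋₊ : ℕ) + 1 := Nat.lt_floor_add_one y
  unfold Q
  rw [interp_of_mem _ ⌊y⌋₊ hf1 hf2]
  have h1 : (0 : ℝ) ≤ node w ⌊y⌋₊ := Nat.cast_nonneg _
  have h2 : (0 : ℝ) ≤ node w (⌊y⌋₊ + 1) := Nat.cast_nonneg _
  nlinarith

theorem Q_lower (w : ℕ) {y : ℝ} (h0 : 0 ≤ y) : (y - 1) / 2 - w ≤ Q w y := by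
  have hf1 : ((⌊y⌋₊ : ℕ) : ℝ) ≤ y := Nat.floor_le h0
  have hf2 : y < (⌊y⌋₊ : ℕ) + 1 := Nat.lt_floor_add_one y
  unfold Q
  rw [interp_of_mem _ ⌊y⌋₊ hf1 hf2]
  have h1 := node_ge w ⌊y⌋₊
  have h2 := node_ge w (⌊y⌋₊ + 1)
  push_cast at h2
  nlinarith

theorem Q_zero (w : ℕ) : Q w 0 = 0 := by
  have := interp_natCast (fun n => (node w n : ℝ)) 0
  simp only [Nat.cast_zero] at this
  unfold Q
  rw [this]
  simp [node]

/-- positive levels of the zigzag -/
theorem Q_count {w : ℕ} (hw : 1 ≤ w) {q : ℝ} (hq : 0 < q) :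
    {y : ℝ | 0 ≤ y ∧ Q w y = q}.Finite ∧ {y : ℝ | 0 ≤ y ∧ Q w y = q}.ncard = 2 * w + 1 := by
  classical
  let f := ⌊q⌋₊
  let c := ⌈q⌉₊
  have hf1 : (f : ℝ) ≤ q := Nat.floor_le hq.le
  have hf2 : q < f + 1 := Nat.lt_floor_add_one q
  have hc1 : q ≤ c := Nat.le_ceil q
  have hc0 : 1 ≤ c := Nat.one_le_iff_ne_zero.2 (Nat.ceil_pos.2 hq).ne'
  have hc2 : (c : ℝ) < q + 1 := Nat.ceil_lt_add_one hq.le
  let S : Finset ℕ := ((Finset.range (w + 1)).image fun i => 2 * (f + i)) ∪
    ((Finset.range w).image fun i => 2 * (c + i) - 1)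
  have hcard : S.card = 2 * w + 1 := by
    rw [Finset.card_union_of_disjoint, Finset.card_image_of_injective,
      Finset.card_image_of_injOn, Finset.card_range, Finset.card_range]
    · ring
    · intro i _ j _ h
      simp only at h
      omega
    · intro i j h
      simp only at h
      omega
    · rw [Finset.disjoint_left]
      intro n hn hn'
      simp only [Finset.mem_image, Finset.mem_range] at hn hn'
      obtain ⟨i, hi, rfl⟩ := hn
      obtain ⟨j, hj, h⟩ := hn'
      omega
  rw [← hcard]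
  refine interp_count _ q S ?_ (fun n => by exact_mod_cast node_ne hw n)
  intro n
  rcases Nat.even_or_odd' n with ⟨j, rfl | rfl⟩
  · rw [node_even, node_odd]
    have h1 : (2 * j ∈ S) ↔ (f ≤ j ∧ j ≤ f + w) := by
      simp only [S, Finset.mem_union, Finset.mem_image, Finset.mem_range]
      constructor
      · rintro (⟨i, hi, h⟩ | ⟨i, hi, h⟩)
        · omega
        · omega
      · intro h
        exact Or.inl ⟨j - f, by omega, by omega⟩
    rw [h1]
    constructor
    · rintro ⟨h2, h3⟩
      left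
      constructor
      · have h4 : j - w ≤ f := by omega
        have h5 : ((j - w : ℕ) : ℝ) ≤ f := by exact_mod_cast h4
        linarith
      · push_cast
        have h4 : (f : ℝ) ≤ j := by exact_mod_cast h2
        linarith
    · rintro (⟨h2, h3⟩ | ⟨h2, h3⟩)
      · push_cast at h3
        have h4 : (f : ℝ) < j + 1 := by linarith
        have h5 : f < j + 1 := by exact_mod_cast h4
        have h6 : ((j - w : ℕ) : ℝ) < f + 1 := by linarith
        have h7 : j - w < f + 1 := by exact_mod_cast h6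
        omega
      · exfalso
        push_cast at h2
        have h4 : ((j - w : ℕ) : ℝ) ≤ j := by exact_mod_cast Nat.sub_le j w
        linarith
  · have e : 2 * j + 1 + 1 = 2 * (j + 1) := by ring
    rw [e, node_odd, node_even]
    have h1 : (2 * j + 1 ∈ S) ↔ (c ≤ j + 1 ∧ j + 1 < c + w) := by
      simp only [S, Finset.mem_union, Finset.mem_image, Finset.mem_range]
      constructor
      · rintro (⟨i, hi, h⟩ | ⟨i, hi, h⟩)
        · omega
        · omega
      · intro h
        exact Or.inr ⟨j + 1 - c, by omega, by omega⟩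
    rw [h1]
    constructor
    · rintro ⟨h2, h3⟩
      right
      constructor
      · rcases Nat.lt_or_ge (j + 1) w with h | h
        · rw [Nat.sub_eq_zero_of_le h.le]
          simpa using hq
        · have h4 : j + 1 - w + 1 ≤ c := by omega
          have h5 : ((j + 1 - w : ℕ) : ℝ) + 1 ≤ c := by exact_mod_cast h4
          linarith
      · have h4 : (c : ℝ) ≤ ((j + 1 : ℕ) : ℝ) := by exact_mod_cast h2
        linarith
    · rintro (⟨h2, h3⟩ | ⟨h2, h3⟩)
      · exfalso
        have h4 : ((j + 1 - w : ℕ) : ℝ) ≤ ((j + 1 : ℕ) : ℝ) := by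
          exact_mod_cast Nat.sub_le _ _
        linarith
      · have h4 : (c : ℝ) < ((j + 1 : ℕ) : ℝ) + 1 := by linarith
        have h5 : c < j + 1 + 1 := by exact_mod_cast h4
        have h6 : ((j + 1 - w : ℕ) : ℝ) < c := by linarith
        have h7 : j + 1 - w < c := by exact_mod_cast h6
        omega

/-- the level zero of the zigzag -/
theorem Q_count_zero {w : ℕ} (hw : 1 ≤ w) :
    {y : ℝ | 0 ≤ y ∧ Q w y = 0}.Finite ∧ {y : ℝ | 0 ≤ y ∧ Q w y = 0}.ncard = w + 1 := by
  classical
  let S : Finset ℕ := (Finset.range (w + 1)).image fun i => 2 * i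
  have hcard : S.card = w + 1 := by
    rw [Finset.card_image_of_injective, Finset.card_range]
    intro i j h
    simp only at h
    omega
  rw [← hcard]
  refine interp_count _ 0 S ?_ (fun n => by exact_mod_cast node_ne hw n)
  intro n
  have h0 : ∀ m : ℕ, ¬ ((m : ℝ) < 0) := fun m => not_lt.2 (Nat.cast_nonneg m)
  simp only [h0, false_and, or_false]
  rcases Nat.even_or_odd' n with ⟨j, rfl | rfl⟩
  · rw [node_even, node_odd]
    have h1 : (2 * j ∈ S) ↔ j ≤ w := by
      simp only [S, Finset.mem_image, Finset.mem_range]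
      constructor
      · rintro ⟨i, hi, h⟩
        omega
      · intro h
        exact ⟨j, by omega, rfl⟩
    rw [h1]
    constructor
    · intro h2
      refine ⟨by rw [Nat.sub_eq_zero_of_le h2]; simp, ?_⟩
      push_cast
      positivity
    · rintro ⟨h2, -⟩
      have h3 : j - w ≤ 0 := by exact_mod_cast h2
      omega
  · rw [node_odd]
    have h1 : ¬ (2 * j + 1 ∈ S) := by
      simp only [S, Finset.mem_image, Finset.mem_range]
      rintro ⟨i, hi, h⟩
      omega
    simp only [h1, false_iff]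
    rintro ⟨h2, -⟩
    push_cast at h2
    have : (0 : ℝ) ≤ j := Nat.cast_nonneg j
    linarith

/-- The wild path. -/
theorem gadget (w : ℕ) : ∃ P : ℝ → ℝ, ContinuousOn P (Set.Icc 0 1) ∧ P 0 = 0 ∧ P 1 = 1 ∧
    (∀ s, 0 < s → s ≤ 1 → 0 < P s ∧ P s ≤ 1) ∧
    (∀ z, 0 < z → z < 1 → {s | 0 < s ∧ s < 1 ∧ P s = z}.Finite ∧
      {s | 0 < s ∧ s < 1 ∧ P s = z}.ncard = 2 * w + 1) ∧
    {s | 0 < s ∧ s < 1 ∧ P s = 1}.Finite ∧ {s | 0 < s ∧ s < 1 ∧ P s = 1}.ncard = w := by
  classical
  rcases Nat.eq_zero_or_pos w with rfl | hw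
  · refine ⟨fun s => s, continuousOn_id, rfl, rfl, fun s h0 h1 => ⟨h0, h1⟩, ?_, ?_, ?_⟩
    · intro z h0 h1
      have : {s : ℝ | 0 < s ∧ s < 1 ∧ s = z} = {z} := by
        ext s
        simp only [Set.mem_ofPred_eq, Set.mem_singleton_iff]
        constructor
        · exact fun h => h.2.2
        · rintro rfl
          exact ⟨h0, h1, rfl⟩
      rw [this]
      simp
    · have : {s : ℝ | 0 < s ∧ s < 1 ∧ s = 1} = ∅ := by
        ext s
        simp only [Set.mem_ofPred_eq, Set.mem_empty_iff_false, iff_false]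
        rintro ⟨_, h1, h2⟩
        linarith
      rw [this]
      exact Set.finite_empty
    · have : {s : ℝ | 0 < s ∧ s < 1 ∧ s = 1} = ∅ := by
        ext s
        simp only [Set.mem_ofPred_eq, Set.mem_empty_iff_false, iff_false]
        rintro ⟨_, h1, h2⟩
        linarith
      rw [this]
      simp
  · let P : ℝ → ℝ := fun s => if s ≤ 0 then 0 else 1 / (1 + Q w (1 / s - 1))
    have hP : ∀ s, 0 < s → P s = 1 / (1 + Q w (1 / s - 1)) := fun s hs => if_neg (not_le.2 hs)
    have hy : ∀ s : ℝ, 0 < s → s ≤ 1 → 0 ≤ 1 / s - 1 := by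
      intro s h0 h1
      have := (one_le_div h0).2 h1
      linarith
    have hpos : ∀ s, 0 < s → s ≤ 1 → 0 < P s ∧ P s ≤ 1 := by
      intro s h0 h1
      have h2 := Q_nonneg w (hy s h0 h1)
      rw [hP s h0]
      exact ⟨by positivity, (div_le_one (by linarith)).2 (by linarith)⟩
    -- transfer of the counting
    have htr : ∀ z : ℝ, 0 < z → z ≤ 1 → {s | 0 < s ∧ s < 1 ∧ P s = z} =
        (fun y : ℝ => 1 / (1 + y)) '' ({y : ℝ | 0 ≤ y ∧ Q w y = 1 / z - 1} \ {0}) := by
      intro z hz0 hz1
      ext s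
      simp only [Set.mem_ofPred_eq, Set.mem_image, Set.mem_sdiff, Set.mem_singleton_iff]
      constructor
      · rintro ⟨h0, h1, h2⟩
        refine ⟨1 / s - 1, ⟨⟨hy s h0 h1.le, ?_⟩, ?_⟩, ?_⟩
        · rw [hP s h0] at h2
          have h3 := Q_nonneg w (hy s h0 h1.le)
          rw [← h2, one_div_one_div]
          ring
        · have := (one_lt_div h0).2 h1
          intro h
          linarith
        · rw [add_sub_cancel, one_div_one_div]
      · rintro ⟨y, ⟨⟨h0, h1⟩, h2⟩, rfl⟩
        have h3 : 0 < y := lt_of_le_of_ne h0 (Ne.symm h2)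
        refine ⟨by positivity, (div_lt_one (by linarith)).2 (by linarith), ?_⟩
        rw [hP _ (by positivity), one_div_one_div, add_sub_cancel_left, h1, add_sub_cancel,
          one_div_one_div]
    have hinj : Set.InjOn (fun y : ℝ => 1 / (1 + y)) (Set.Ici 0) := by
      intro y hy' y' hy'' h
      have h1 : (0 : ℝ) < 1 + y := by have : (0 : ℝ) ≤ y := hy'; linarith
      have h2 : (0 : ℝ) < 1 + y' := by have : (0 : ℝ) ≤ y' := hy''; linarith
      simp only at h
      rw [div_eq_div_iff h1.ne' h2.ne'] at h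
      linarith
    refine ⟨P, ?_, if_pos le_rfl, ?_, hpos, ?_, ?_, ?_⟩
    · intro s hs
      rcases hs.1.eq_or_lt with rfl | h0
      · -- continuity at zero
        have hP0 : P 0 = 0 := if_pos le_rfl
        have hb : ∀ s ∈ Set.Icc (0 : ℝ) 1, P s ≤ (2 * w + 4) * s := by
          intro s hs
          rcases hs.1.eq_or_lt with rfl | h0
          · rw [hP0]; simp
          · have hy0 := hy s h0 hs.2
            have h2 := Q_nonneg w hy0
            have h3 := Q_lower w hy0
            rw [hP s h0, div_le_iff₀ (by linarith)]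
            have hw0 : (1 : ℝ) ≤ w := by exact_mod_cast hw
            set y : ℝ := 1 / s - 1 with hydef
            have hs' : s = 1 / (1 + y) := by
              rw [hydef, add_sub_cancel, one_div_one_div]
            rw [hs', mul_one_div, div_mul_eq_mul_div, le_div_iff₀ (by linarith), one_mul]
            rcases le_total y (2 * w + 3) with hc | hc
            · nlinarith
            · have h4 : (y - 1) / 2 - w + 1 ≤ 1 + Q w y := by linarith
              have h5 : (2 * (w : ℝ) + 4) * ((y - 1) / 2 - w + 1) ≤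
                  (2 * (w : ℝ) + 4) * (1 + Q w y) :=
                mul_le_mul_of_nonneg_left h4 (by positivity)
              nlinarith
        have hlow : ∀ s ∈ Set.Icc (0 : ℝ) 1, 0 ≤ P s := by
          intro s hs
          rcases hs.1.eq_or_lt with rfl | h0
          · rw [hP0]
          · exact (hpos s h0 hs.2).1.le
        unfold ContinuousWithinAt
        rw [hP0]
        have hlim : Filter.Tendsto (fun s : ℝ => (2 * (w : ℝ) + 4) * s)
            (nhdsWithin 0 (Set.Icc 0 1)) (nhds 0) := by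
          have : Continuous (fun s : ℝ => (2 * (w : ℝ) + 4) * s) := by fun_prop
          have h := (this.tendsto 0).mono_left (nhdsWithin_le_nhds (s := Set.Icc (0 : ℝ) 1))
          simpa using h
        refine tendsto_of_tendsto_of_tendsto_of_le_of_le' tendsto_const_nhds hlim ?_ ?_
        · filter_upwards [self_mem_nhdsWithin] with s hs using hlow s hs
        · filter_upwards [self_mem_nhdsWithin] with s hs using hb s hs
      · have hc : ContinuousAt (fun s : ℝ => 1 / (1 + Q w (1 / s - 1))) s := by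
          have hQ : Continuous (Q w) := continuous_interp _
          have h1 : ContinuousAt (fun s : ℝ => 1 / s - 1) s :=
            (continuousAt_const.div continuousAt_id h0.ne').sub continuousAt_const
          have h2 : ContinuousAt (fun s : ℝ => Q w (1 / s - 1)) s :=
            ContinuousAt.comp (f := fun s : ℝ => 1 / s - 1) hQ.continuousAt h1
          have h3 := Q_nonneg w (hy s h0 hs.2)
          exact continuousAt_const.div (continuousAt_const.add h2) (by linarith)
        refine ContinuousAt.continuousWithinAt (hc.congr ?_)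
        filter_upwards [lt_mem_nhds h0] with x hx
        exact (hP x hx).symm
    · show P 1 = 1
      rw [hP 1 one_pos]
      norm_num [Q_zero]
    · intro z hz0 hz1
      have hq : 0 < 1 / z - 1 := by
        have := (one_lt_div hz0).2 hz1
        linarith
      obtain ⟨c1, c2⟩ := Q_count hw hq
      have h0 : {y : ℝ | 0 ≤ y ∧ Q w y = 1 / z - 1} \ {0} =
          {y : ℝ | 0 ≤ y ∧ Q w y = 1 / z - 1} := by
        apply Set.sdiff_singleton_eq_self
        rintro ⟨-, h⟩
        rw [Q_zero] at h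
        linarith
      rw [htr z hz0 hz1.le, h0]
      refine ⟨c1.image _, ?_⟩
      rw [(hinj.mono fun y hy => hy.1).ncard_image, c2]
    · obtain ⟨c1, c2⟩ := Q_count_zero hw
      rw [htr 1 one_pos le_rfl]
      have e : (1 : ℝ) / 1 - 1 = 0 := by norm_num
      rw [e]
      exact (c1.subset Set.sdiff_subset).image _
    · obtain ⟨c1, c2⟩ := Q_count_zero hw
      rw [htr 1 one_pos le_rfl]
      have e : (1 : ℝ) / 1 - 1 = 0 := by norm_num
      rw [e, (hinj.mono fun y hy => hy.1.1).ncard_image,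
        Set.ncard_sdiff_singleton_of_mem
          (show (0 : ℝ) ∈ {y : ℝ | 0 ≤ y ∧ Q w y = 0} from ⟨le_rfl, Q_zero w⟩), c2]
      rfl

end Pool.Agent.R797.KT
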