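import Mathlib

set_option autoImplicit false

/-! Parity of the number of zeros of a continuous function, and countability of the set of local
extreme values. -/

namespace Pool.Agent.R797.KT

theorem countable_localMax (g : ℝ → ℝ) : {z | ∃ t, IsLocalMax g t ∧ g t = z}.Countable := by
  have h : {z | ∃ t, IsLocalMax g t ∧ g t = z} ⊆
      Set.range (fun p : ℚ × ℚ => sSup (g '' Set.Ioo (p.1 : ℝ) p.2)) := by
    rintro z ⟨t, ht, rfl⟩
    obtain ⟨l, u, hlu, hsub⟩ := mem_nhds_iff_exists_Ioo_subset.1 ht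
    obtain ⟨p, hp1, hp2⟩ := exists_rat_btwn hlu.1
    obtain ⟨q, hq1, hq2⟩ := exists_rat_btwn hlu.2
    refine ⟨(p, q), ?_⟩
    refine IsGreatest.csSup_eq ⟨⟨t, ⟨hp2, hq1⟩, rfl⟩, ?_⟩
    rintro _ ⟨s, hs, rfl⟩
    exact hsub ⟨hp1.trans hs.1, hs.2.trans hq2⟩
  exact (Set.countable_range _).mono h

theorem countable_localExtr (g : ℝ → ℝ) : {z | ∃ t, IsLocalExtr g t ∧ g t = z}.Countable := by
  have h1 := countable_localMax g
  have h2 := countable_localMax (fun t => - g t)
  refine (h1.union (h2.image fun z => -z)).mono ?_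
  rintro z ⟨t, ht, rfl⟩
  rcases ht with ht | ht
  · exact Or.inr ⟨- g t, ⟨t, ht.neg, rfl⟩, neg_neg _⟩
  · exact Or.inl ⟨t, ht, rfl⟩

/-- constant sign between zeros -/
theorem same_sign {g : ℝ → ℝ} {p q : ℝ} (hpq : p ≤ q) (hg : ContinuousOn g (Set.Icc p q))
    (hp : g p ≠ 0) (hq : g q ≠ 0) (h : ∀ t, p < t → t < q → g t ≠ 0) : 0 < g p * g q := by
  by_contra hcon
  have hne : g p * g q ≠ 0 := mul_ne_zero hp hq
  have hlt : g p * g q < 0 := lt_of_le_of_ne (not_lt.1 hcon) hne
  have hz : ∃ t ∈ Set.Icc p q, g t = 0 := by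
    rcases lt_or_gt_of_ne hp with h1 | h1
    · have h2 : 0 < g q := by nlinarith
      have := intermediate_value_Icc hpq hg (show (0 : ℝ) ∈ Set.Icc (g p) (g q) from ⟨h1.le, h2.le⟩)
      exact this
    · have h2 : g q < 0 := by nlinarith
      have := intermediate_value_Icc' hpq hg (show (0 : ℝ) ∈ Set.Icc (g q) (g p) from ⟨h2.le, h1.le⟩)
      exact this
  obtain ⟨t, ht, h0⟩ := hz
  have h1 : p ≠ t := fun e => hp (e ▸ h0)
  have h2 : t ≠ q := fun e => hq (e ▸ h0)
  exact h t (lt_of_le_of_ne ht.1 h1) (lt_of_le_of_ne ht.2 h2) h0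

theorem parity (n : ℕ) : ∀ (g : ℝ → ℝ) (p q : ℝ) (S : Finset ℝ), p < q →
    ContinuousOn g (Set.Icc p q) → g p ≠ 0 → g q ≠ 0 →
    (∀ t, t ∈ S ↔ p < t ∧ t < q ∧ g t = 0) → S.card = n → (∀ t ∈ S, ¬ IsLocalExtr g t) →
    (Odd n ↔ g p * g q < 0) := by
  induction n with
  | zero =>
    intro g p q S hpq hg hp hq hS hn _
    have hS0 : S = ∅ := Finset.card_eq_zero.1 hn
    have h1 := same_sign hpq.le hg hp hq (fun t h1 h2 h3 => by
      have := (hS t).2 ⟨h1, h2, h3⟩
      rw [hS0] at this
      simp at this)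
    constructor
    · intro h
      simp at h
    · intro h
      linarith
  | succ n ih =>
    intro g p q S hpq hg hp hq hS hn hext
    have hne : S.Nonempty := Finset.card_pos.1 (by omega)
    set t₀ := S.min' hne with ht₀
    have ht₀S : t₀ ∈ S := Finset.min'_mem S hne
    obtain ⟨hp0, h0q, hg0⟩ := (hS t₀).1 ht₀S
    obtain ⟨r, hr0, hrq, hr⟩ : ∃ r, t₀ < r ∧ r ≤ q ∧ ∀ t ∈ S, t ≤ t₀ ∨ r ≤ t := by
      rcases (S.erase t₀).eq_empty_or_nonempty with he | he
      · refine ⟨q, h0q, le_rfl, fun t ht => ?_⟩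
        by_cases hc : t = t₀
        · exact Or.inl hc.le
        · have : t ∈ S.erase t₀ := Finset.mem_erase.2 ⟨hc, ht⟩
          rw [he] at this
          simp at this
      · refine ⟨(S.erase t₀).min' he, ?_, ?_, ?_⟩
        · have h1 := Finset.min'_mem _ he
          have h2 := Finset.mem_erase.1 h1
          exact lt_of_le_of_ne (Finset.min'_le S _ h2.2) (Ne.symm h2.1)
        · have h1 := Finset.min'_mem _ he
          exact ((hS _).1 (Finset.mem_erase.1 h1).2).2.1.le
        · intro t ht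
          by_cases hc : t = t₀
          · exact Or.inl hc.le
          · exact Or.inr (Finset.min'_le _ _ (Finset.mem_erase.2 ⟨hc, ht⟩))
    have hleft : ∀ x, p ≤ x → x < t₀ → 0 < g p * g x := by
      intro x hx1 hx2
      have hnz : ∀ t, p < t → t ≤ x → g t ≠ 0 := by
        intro t h1 h2 h3
        have h4 : t ∈ S := (hS t).2 ⟨h1, by linarith, h3⟩
        have h5 := Finset.min'_le S t h4
        rw [← ht₀] at h5
        linarith
      rcases hx1.eq_or_lt with rfl | hx1'
      · exact mul_self_pos.2 hp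
      · refine same_sign hx1 (hg.mono (Set.Icc_subset_Icc_right (by linarith))) hp
          (hnz x hx1' le_rfl) (fun t h1 h2 => hnz t h1 h2.le)
    have hex : ∃ x, t₀ < x ∧ x < r ∧ g p * g x < 0 := by
      by_contra hcon
      push Not at hcon
      apply hext t₀ ht₀S
      have hev : ∀ᶠ x in nhds t₀, 0 ≤ g p * g x := by
        have hmem : Set.Ioo p r ∈ nhds t₀ := Ioo_mem_nhds hp0 hr0
        filter_upwards [hmem] with x hx
        rcases lt_trichotomy x t₀ with h1 | h1 | h1
        · exact (hleft x hx.1.le h1).le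
        · rw [h1, hg0, mul_zero]
        · exact hcon x h1 hx.2
      rcases lt_or_gt_of_ne hp with h1 | h1
      · right
        show ∀ᶠ x in nhds t₀, g x ≤ g t₀
        filter_upwards [hev] with x hx
        rw [hg0]
        by_contra hc
        push Not at hc
        nlinarith
      · left
        show ∀ᶠ x in nhds t₀, g t₀ ≤ g x
        filter_upwards [hev] with x hx
        rw [hg0]
        by_contra hc
        push Not at hc
        nlinarith
    obtain ⟨x, hx0, hxr, hgx⟩ := hex
    have hgx0 : g x ≠ 0 := by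
      intro h
      rw [h, mul_zero] at hgx
      exact lt_irrefl _ hgx
    have hS' : ∀ t, t ∈ S.erase t₀ ↔ x < t ∧ t < q ∧ g t = 0 := by
      intro t
      rw [Finset.mem_erase]
      constructor
      · rintro ⟨h1, h2⟩
        obtain ⟨h3, h4, h5⟩ := (hS t).1 h2
        refine ⟨?_, h4, h5⟩
        rcases hr t h2 with h6 | h6
        · exact absurd (le_antisymm h6 (by rw [ht₀]; exact Finset.min'_le S t h2)) h1
        · linarith
      · rintro ⟨h1, h2, h3⟩
        exact ⟨by rintro rfl; linarith, (hS t).2 ⟨by linarith, h2, h3⟩⟩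
    have hcard : (S.erase t₀).card = n := by
      rw [Finset.card_erase_of_mem ht₀S]
      omega
    have h1 := ih g x q (S.erase t₀) (by linarith) (hg.mono (Set.Icc_subset_Icc_left (by linarith)))
      hgx0 hq hS' hcard (fun t ht => hext t (Finset.mem_of_mem_erase ht))
    rw [Nat.odd_add_one, h1]
    constructor
    · intro h2
      have h3 : 0 < g x * g q := lt_of_le_of_ne (not_lt.1 h2) (Ne.symm (mul_ne_zero hgx0 hq))
      by_contra h4
      push Not at h4
      have h5 : 0 < g p * g q := lt_of_le_of_ne h4 (Ne.symm (mul_ne_zero hp hq))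
      have h6 : 0 < (g p * g q) * (g x * g q) := mul_pos h5 h3
      have h7 : (g p * g q) * (g x * g q) = (g p * g x) * (g q * g q) := by ring
      rw [h7] at h6
      have h8 : 0 < g q * g q := mul_self_pos.2 hq
      nlinarith
    · intro h2 h3
      have h6 : 0 < (g p * g q) * (g x * g q) := mul_pos_of_neg_of_neg h2 h3
      have h7 : (g p * g q) * (g x * g q) = (g p * g x) * (g q * g q) := by ring
      rw [h7] at h6
      have h8 : 0 < g q * g q := mul_self_pos.2 hq
      nlinarith

/-- a level avoiding the local extreme values of finitely many functions -/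
theorem exists_generic {ι : Type} [Finite ι] (g : ι → ℝ → ℝ) {a b : ℝ} (hab : a < b) :
    ∃ z, a < z ∧ z < b ∧ ∀ i t, IsLocalExtr (g i) t → g i t ≠ z := by
  have hc : (⋃ i, {z | ∃ t, IsLocalExtr (g i) t ∧ g i t = z}).Countable :=
    Set.countable_iUnion fun i => countable_localExtr (g i)
  obtain ⟨z, hz1, hz2⟩ := (hc.dense_compl ℝ).exists_mem_open isOpen_Ioo (Set.nonempty_Ioo.2 hab)
  refine ⟨z, hz2.1, hz2.2, fun i t ht h => hz1 ?_⟩
  exact Set.mem_iUnion.2 ⟨i, t, ht, h⟩

end Pool.Agent.R797.KT
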