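import Pool.Agent.R797.KT.Basic
import Pool.Agent.R797.KT.Parity

set_option autoImplicit false

/-! Necessity: the data read off from a `k`-to-1 map which maps exactly the vertices to
vertices. -/

namespace Pool.Agent.R797.KT

open Classical

variable {V W : Type}

/-- The combinatorial data over the oriented edges: `b d` is the other end point of the edge
of `H` over which `d` lies. -/
structure Data (G : SimpleGraph V) (H : SimpleGraph W) (k : ℕ) (φ : V → W) (b : Dt G → W) :
    Prop where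
  adj : ∀ d, H.Adj (φ d.1.1) (b d)
  cross : ∀ d : Dt G, φ d.1.1 ≠ φ d.1.2 → b d = φ d.1.2
  symm : ∀ (u v : V) (h : G.Adj u v), φ u = φ v → b ⟨(v, u), h.symm⟩ = b ⟨(u, v), h⟩
  fib : ∀ a, {v | φ v = a}.ncard = k
  pos : ∀ a c, H.Adj a c → 1 ≤ {d : Dt G | φ d.1.1 = a ∧ b d = c}.ncard
  le : ∀ a c, H.Adj a c → {d : Dt G | φ d.1.1 = a ∧ b d = c}.ncard ≤ k
  par : ∀ a c, H.Adj a c → {d : Dt G | φ d.1.1 = a ∧ b d = c}.ncard % 2 = k % 2

/-- clamp a real to the unit interval -/
noncomputable def clamp (t : ℝ) : ℝ := max 0 (min 1 t)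

theorem clamp_nonneg (t : ℝ) : 0 ≤ clamp t := le_max_left _ _

theorem clamp_le (t : ℝ) : clamp t ≤ 1 := max_le zero_le_one (min_le_left _ _)

theorem clamp_of_mem {t : ℝ} (h0 : 0 ≤ t) (h1 : t ≤ 1) : clamp t = t := by
  unfold clamp
  rw [min_eq_right h1, max_eq_right h0]

theorem continuous_clamp : Continuous clamp := by
  unfold clamp
  fun_prop

/-- the edge path of `d` -/
noncomputable def epath {G : SimpleGraph V} (d : Dt G) (t : ℝ) : carrier G :=
  ⟨pt d.1.1 d.1.2 (clamp t), pt_mem (Or.inr d.2) (clamp_nonneg t) (clamp_le t)⟩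

theorem continuous_epath {G : SimpleGraph V} (d : Dt G) : Continuous (epath d) :=
  ((continuous_pt _ _).comp continuous_clamp).subtype_mk _

theorem epath_zero {G : SimpleGraph V} (d : Dt G) : epath d 0 = vert G d.1.1 := by
  apply Subtype.ext
  show pt _ _ (clamp 0) = pt _ _ 0
  rw [clamp_of_mem le_rfl zero_le_one, pt_zero]

theorem epath_one {G : SimpleGraph V} (d : Dt G) : epath d 1 = vert G d.1.2 := by
  apply Subtype.ext
  show pt _ _ (clamp 1) = pt _ _ 0
  rw [clamp_of_mem zero_le_one le_rfl, pt_one]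

theorem epath_symm {G : SimpleGraph V} {u v : V} (h : G.Adj u v) (t : ℝ) (h0 : 0 ≤ t)
    (h1 : t ≤ 1) : epath (G := G) ⟨(v, u), h.symm⟩ (1 - t) = epath ⟨(u, v), h⟩ t := by
  apply Subtype.ext
  show pt v u (clamp (1 - t)) = pt u v (clamp t)
  rw [clamp_of_mem h0 h1, clamp_of_mem (by linarith) (by linarith), pt_symm, sub_sub_cancel]

theorem epath_not_vert {G : SimpleGraph V} (d : Dt G) {t : ℝ} (h0 : 0 < t) (h1 : t < 1) (w : V) :
    epath d t ≠ vert G w := by
  intro h
  have h2 : pt d.1.1 d.1.2 (clamp t) = pt w w 0 := congrArg Subtype.val h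
  rw [clamp_of_mem h0.le h1.le] at h2
  have hne := d.2.ne
  have e1 := congrFun h2 d.1.1
  have e2 := congrFun h2 d.1.2
  rw [pt_left hne] at e1
  rw [pt_right hne] at e2
  have hu : d.1.1 = w := by
    by_contra hc
    rw [pt_other hc hc] at e1
    linarith
  have hv : d.1.2 = w := by
    by_contra hc
    rw [pt_other hc hc] at e2
    linarith
  exact hne (hu.trans hv.symm)

/-- support of a point -/
theorem supp_pair {H : SimpleGraph W} {y : W → ℝ} (hy : y ∈ carrier H) {a c : W} (hac : a ≠ c)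
    (ha : 0 < y a) (hc : 0 < y c) : H.Adj a c ∧ y = pt a c (y c) ∧ ∀ w, 0 < y w → w = a ∨ w = c := by
  obtain ⟨p, q, hpq, t, h0, h1, rfl⟩ := hy
  have key : ∀ w, 0 < pt p q t w → w = p ∨ w = q := by
    intro w hw
    by_contra hcon
    push Not at hcon
    rw [pt_other hcon.1 hcon.2] at hw
    exact lt_irrefl _ hw
  have hne : p ≠ q := by
    rintro rfl
    rcases key a ha with h | h
    · rcases key c hc with h' | h'
      · exact hac (h.trans h'.symm)
      · exact hac (h.trans h'.symm)
    · rcases key c hc with h' | h'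
      · exact hac (h.trans h'.symm)
      · exact hac (h.trans h'.symm)
  have hadj : H.Adj p q := hpq.resolve_left hne
  rcases key a ha with rfl | rfl
  · rcases key c hc with rfl | rfl
    · exact absurd rfl hac
    · exact ⟨hadj, by rw [pt_right hne], key⟩
  · rcases key c hc with rfl | rfl
    · refine ⟨hadj.symm, ?_, fun w hw => (key w hw).symm⟩
      rw [pt_left hne, pt_symm]
    · exact absurd rfl hac

/-- a point which is not a vertex lies in an open edge -/
theorem exists_pair {H : SimpleGraph W} {y : carrier H} (hy : ∀ w, y ≠ vert H w) :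
    ∃ a c, H.Adj a c ∧ 0 < y.1 a ∧ 0 < y.1 c := by
  obtain ⟨p, q, hpq, t, h0, h1, hx⟩ := y.2
  have hne : p ≠ q := by
    rintro rfl
    exact hy p (Subtype.ext (by rw [hx, pt_self]; rfl))
  have h0' : t ≠ 0 := by
    rintro rfl
    exact hy p (Subtype.ext (by rw [hx, pt_zero]; rfl))
  have h1' : t ≠ 1 := by
    rintro rfl
    exact hy q (Subtype.ext (by rw [hx, pt_one]; rfl))
  refine ⟨p, q, hpq.resolve_left hne, ?_, ?_⟩
  · rw [hx, pt_left hne]
    have := lt_of_le_of_ne h1 h1'
    linarith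
  · rw [hx, pt_right hne]
    exact lt_of_le_of_ne h0 (Ne.symm h0')

/-- half-edge coordinates of a point which is not a vertex -/
theorem exists_hp' {G : SimpleGraph V} {x : carrier G} (hx : ∀ w, x ≠ vert G w) :
    ∃ d : Dt G, ∃ s : ℝ, 0 < s ∧ s ≤ 1 ∧ x = epath d (s / 2) := by
  obtain ⟨p, q, h, hp, hq⟩ := exists_pair hx
  obtain ⟨-, h2, -⟩ := supp_pair x.2 h.ne hp hq
  have hsum : x.1 p + x.1 q = 1 := by
    have := congrFun h2 p
    rw [pt_left h.ne] at this
    linarith
  rcases le_total (x.1 q) (1 / 2) with ht | ht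
  · refine ⟨⟨(p, q), h⟩, 2 * x.1 q, by linarith, by linarith, Subtype.ext ?_⟩
    show x.1 = pt p q (clamp (2 * x.1 q / 2))
    rw [mul_div_cancel_left₀ _ (two_ne_zero), clamp_of_mem hq.le (by linarith)]
    exact h2
  · refine ⟨⟨(q, p), h.symm⟩, 2 * (1 - x.1 q), by linarith, by linarith, Subtype.ext ?_⟩
    show x.1 = pt q p (clamp (2 * (1 - x.1 q) / 2))
    rw [mul_div_cancel_left₀ _ (two_ne_zero), clamp_of_mem (by linarith) (by linarith),
      pt_symm, sub_sub_cancel]
    exact h2

theorem epath_half_inj {G : SimpleGraph V} {d d' : Dt G} {s s' : ℝ} (h0 : 0 < s) (h1 : s < 1)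
    (h0' : 0 < s') (h1' : s' < 1) (h : epath d (s / 2) = epath d' (s' / 2)) :
    d = d' ∧ s = s' := by
  have h2 : pt d.1.1 d.1.2 (clamp (s / 2)) = pt d'.1.1 d'.1.2 (clamp (s' / 2)) :=
    congrArg Subtype.val h
  rw [clamp_of_mem (by linarith) (by linarith), clamp_of_mem (by linarith) (by linarith)] at h2
  exact hp_unique h0 h1 h0'.le h1'.le h2

section main

variable [Finite V] [Finite W] {G : SimpleGraph V} {H : SimpleGraph W}
  {f : carrier G → carrier H} (hf : Continuous f) {φ : V → W}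
  (hφ : ∀ v, f (vert G v) = vert H (φ v)) (hv : ∀ x w, f x = vert H w → ∃ v, x = vert G v)

include hf hφ hv

/-- the open edge over which an edge lies -/
theorem exists_dir (d : Dt G) : ∃ c, H.Adj (φ d.1.1) c ∧ (φ d.1.2 = φ d.1.1 ∨ φ d.1.2 = c) ∧
    ∀ t, 0 < t → t < 1 → 0 < (f (epath d t)).1 (φ d.1.1) ∧ 0 < (f (epath d t)).1 c := by
  have hnv : ∀ t, 0 < t → t < 1 → ∀ w, f (epath d t) ≠ vert H w := by
    intro t h0 h1 w h
    obtain ⟨v, hv'⟩ := hv _ w h
    exact epath_not_vert d h0 h1 v hv'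
  obtain ⟨a, c, hac, ha, hc⟩ := exists_pair (hnv (1 / 2) (by norm_num) (by norm_num))
  have hcoord : ∀ w, Continuous fun t => (f (epath d t)).1 w := fun w =>
    (continuous_apply w).comp (continuous_subtype_val.comp (hf.comp (continuous_epath d)))
  let A : Set ℝ := {t | 0 < (f (epath d t)).1 a ∧ 0 < (f (epath d t)).1 c}
  let B : Set ℝ := ⋃ p : {p : W × W // p.1 ≠ p.2 ∧ ¬ (p.1 = a ∧ p.2 = c) ∧ ¬ (p.1 = c ∧ p.2 = a)},
    {t | 0 < (f (epath d t)).1 p.1.1 ∧ 0 < (f (epath d t)).1 p.1.2}
  have hopen : ∀ p q, IsOpen {t | 0 < (f (epath d t)).1 p ∧ 0 < (f (epath d t)).1 q} := fun p q =>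
    (isOpen_lt continuous_const (hcoord p)).inter (isOpen_lt continuous_const (hcoord q))
  have hA : IsOpen A := hopen a c
  have hB : IsOpen B := isOpen_iUnion fun p => hopen _ _
  have hdis : Disjoint A B := by
    rw [Set.disjoint_left]
    intro t htA htB
    obtain ⟨⟨⟨p, q⟩, hpq, h1, h2⟩, htB⟩ := Set.mem_iUnion.1 htB
    obtain ⟨-, -, h3⟩ := supp_pair (f (epath d t)).2 hac.ne htA.1 htA.2
    rcases h3 p htB.1 with rfl | rfl
    · rcases h3 q htB.2 with rfl | rfl
      · exact hpq rfl
      · exact h1 ⟨rfl, rfl⟩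
    · rcases h3 q htB.2 with rfl | rfl
      · exact h2 ⟨rfl, rfl⟩
      · exact hpq rfl
  have hcov : Set.Ioo (0 : ℝ) 1 ⊆ A ∪ B := by
    intro t ht
    obtain ⟨p, q, hpq, hp, hq⟩ := exists_pair (hnv t ht.1 ht.2)
    by_cases h1 : p = a ∧ q = c
    · left
      obtain ⟨rfl, rfl⟩ := h1
      exact ⟨hp, hq⟩
    by_cases h2 : p = c ∧ q = a
    · left
      obtain ⟨rfl, rfl⟩ := h2
      exact ⟨hq, hp⟩
    right
    exact Set.mem_iUnion.2 ⟨⟨(p, q), hpq.ne, h1, h2⟩, hp, hq⟩
  have hsub : Set.Ioo (0 : ℝ) 1 ⊆ A :=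
    IsPreconnected.subset_left_of_subset_union hA hB hdis hcov
      ⟨1 / 2, ⟨by norm_num, by norm_num⟩, ha, hc⟩ isPreconnected_Ioo
  -- the sum of the two coordinates
  have hsum : ∀ t ∈ Set.Icc (0 : ℝ) 1, (f (epath d t)).1 a + (f (epath d t)).1 c = 1 := by
    have hcl : IsClosed {t | (f (epath d t)).1 a + (f (epath d t)).1 c = 1} :=
      isClosed_eq ((hcoord a).add (hcoord c)) continuous_const
    have h1 : Set.Ioo (0 : ℝ) 1 ⊆ {t | (f (epath d t)).1 a + (f (epath d t)).1 c = 1} := by
      intro t ht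
      obtain ⟨-, h2, -⟩ := supp_pair (f (epath d t)).2 hac.ne (hsub ht).1 (hsub ht).2
      have := congrFun h2 a
      rw [pt_left hac.ne] at this
      show (f (epath d t)).1 a + (f (epath d t)).1 c = 1
      linarith
    have h2 := hcl.closure_subset_iff.2 h1
    rwa [closure_Ioo (by norm_num)] at h2
  have hend : ∀ w, (vert H w).1 a + (vert H w).1 c = 1 → w = a ∨ w = c := by
    intro w hw
    by_contra hcon
    push Not at hcon
    have h1 : (vert H w).1 a = 0 := pt_other hcon.1.symm hcon.1.symm 0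
    have h2 : (vert H w).1 c = 0 := pt_other hcon.2.symm hcon.2.symm 0
    rw [h1, h2] at hw
    norm_num at hw
  have h0 : φ d.1.1 = a ∨ φ d.1.1 = c := by
    have := hsum 0 ⟨le_rfl, zero_le_one⟩
    rw [epath_zero, hφ] at this
    exact hend _ this
  have h1 : φ d.1.2 = a ∨ φ d.1.2 = c := by
    have := hsum 1 ⟨zero_le_one, le_rfl⟩
    rw [epath_one, hφ] at this
    exact hend _ this
  rcases h0 with h0 | h0
  · refine ⟨c, by rw [h0]; exact hac, by rw [h0]; exact h1, fun t ht0 ht1 => ?_⟩
    rw [h0]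
    exact hsub ⟨ht0, ht1⟩
  · refine ⟨a, by rw [h0]; exact hac.symm, by rw [h0]; exact h1.symm, fun t ht0 ht1 => ?_⟩
    rw [h0]
    exact ⟨(hsub ⟨ht0, ht1⟩).2, (hsub ⟨ht0, ht1⟩).1⟩

theorem necessity {k : ℕ} (hk : 1 ≤ k) (hfib : ∀ y, (f ⁻¹' {y}).ncard = k) :
    ∃ b : Dt G → W, Data G H k φ b := by
  choose b hb1 hb2 hb3 using exists_dir hf hφ hv
  have hcoord : ∀ d w, Continuous fun s : ℝ => (f (epath d (s / 2))).1 w := fun d w =>
    (continuous_apply w).comp (continuous_subtype_val.comp
      (hf.comp ((continuous_epath d).comp (continuous_id.div_const 2))))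
  -- main counting statement
  have count : ∀ a c, H.Adj a c → ∃ N : Dt G → ℕ, ∑ᶠ d, N d = k ∧
      (∀ d, φ d.1.1 = a ∧ b d = c → N d % 2 = 1) ∧ (∀ d, ¬ (φ d.1.1 = a ∧ b d = c) → N d = 0) := by
    intro a c hac
    let g : Dt G → ℝ → ℝ := fun d s => (f (epath d (s / 2))).1 c
    have hg : ∀ d, Continuous (g d) := fun d => hcoord d c
    have hg0 : ∀ d, φ d.1.1 = a → g d 0 = 0 := by
      intro d hd
      show (f (epath d (0 / 2))).1 c = 0
      rw [zero_div, epath_zero, hφ, hd]
      exact pt_other hac.ne.symm hac.ne.symm 0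
    have hg0' : ∀ d, φ d.1.1 = c → g d 0 = 1 := by
      intro d hd
      show (f (epath d (0 / 2))).1 c = 1
      rw [zero_div, epath_zero, hφ, hd]
      show pt c c 0 c = 1
      simp [pt_apply]
    have hgpos : ∀ d, (φ d.1.1 = a ∧ b d = c) ∨ (φ d.1.1 = c ∧ b d = a) → ∀ s, 0 < s → s ≤ 1 →
        0 < g d s ∧ 0 < (f (epath d (s / 2))).1 a := by
      intro d hd s h0 h1
      have h2 := hb3 d (s / 2) (by linarith) (by linarith)
      rcases hd with ⟨h3, h4⟩ | ⟨h3, h4⟩
      · rw [h3, h4] at h2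
        exact ⟨h2.2, h2.1⟩
      · rw [h3, h4] at h2
        exact h2
    have he : ∀ d : Dt G, ∃ e : ℝ, 0 < e ∧ (φ d.1.1 = a ∧ b d = c → e ≤ g d 1) ∧
        (φ d.1.1 = c ∧ b d = a → ∀ s, 0 ≤ s → s ≤ 1 → e ≤ g d s) := by
      intro d
      by_cases h1 : φ d.1.1 = a ∧ b d = c
      · refine ⟨g d 1, (hgpos d (Or.inl h1) 1 one_pos le_rfl).1, fun _ => le_rfl, fun h2 => ?_⟩
        exact absurd (h1.1.symm.trans h2.1) hac.ne
      · by_cases h2 : φ d.1.1 = c ∧ b d = a
        · obtain ⟨s₀, hs₀, hmin⟩ := isCompact_Icc.exists_isMinOn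
            (Set.nonempty_Icc.2 (zero_le_one (α := ℝ))) (hg d).continuousOn
          refine ⟨g d s₀, ?_, fun h => absurd h h1, fun _ s h0 h1' => hmin ⟨h0, h1'⟩⟩
          rcases hs₀.1.eq_or_lt with h3 | h3
          · rw [← h3, hg0' d h2.1]
            exact one_pos
          · exact (hgpos d (Or.inr h2) s₀ h3 hs₀.2).1
        · exact ⟨1, one_pos, fun h => absurd h h1, fun h => absurd h h2⟩
    choose e he0 he1 he2 using he
    obtain ⟨ε, hε0, hε1, hε⟩ : ∃ ε : ℝ, 0 < ε ∧ ε ≤ 1 ∧ ∀ d, ε ≤ e d := by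
      let F : Option (Dt G) → ℝ := fun o => o.elim 1 e
      obtain ⟨i, hi⟩ := Finite.exists_min F
      refine ⟨F i, ?_, hi none, fun d => hi (some d)⟩
      cases i with
      | none => exact one_pos
      | some d => exact he0 d
    obtain ⟨z, hz0, hzε, hz⟩ := exists_generic g hε0
    have hz1 : z < 1 := hzε.trans_le hε1
    let y : carrier H := ⟨pt a c z, pt_mem (Or.inr hac) hz0.le hz1.le⟩
    have hya : y.1 a = 1 - z := pt_left hac.ne z
    have hyc : y.1 c = z := pt_right hac.ne z
    have hyv : ∀ w, y ≠ vert H w := by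
      intro w h
      have h1 : pt a c z = pt w w 0 := congrArg Subtype.val h
      have h2 := congrFun h1 a
      have h3 := congrFun h1 c
      rw [pt_left hac.ne] at h2
      rw [pt_right hac.ne] at h3
      by_cases h4 : a = w
      · subst h4
        rw [pt_other hac.ne.symm hac.ne.symm] at h3
        linarith
      · rw [pt_other h4 h4] at h2
        linarith
    have hover : ∀ d s, 0 < s → s ≤ 1 → f (epath d (s / 2)) = y →
        (φ d.1.1 = a ∧ b d = c) ∨ (φ d.1.1 = c ∧ b d = a) := by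
      intro d s h0 h1 h
      have h2 := hb3 d (s / 2) (by linarith) (by linarith)
      rw [h] at h2
      obtain ⟨-, -, h3⟩ := supp_pair y.2 hac.ne (by rw [hya]; linarith) (by rw [hyc]; exact hz0)
      have h4 := h3 _ h2.1
      have h5 := h3 _ h2.2
      have h6 := (hb1 d).ne
      rcases h4 with h4 | h4
      · rcases h5 with h5 | h5
        · exact absurd (h4.trans h5.symm) h6
        · exact Or.inl ⟨h4, h5⟩
      · rcases h5 with h5 | h5
        · exact Or.inr ⟨h4, h5⟩
        · exact absurd (h4.trans h5.symm) h6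
    have hiff : ∀ d, (φ d.1.1 = a ∧ b d = c) ∨ (φ d.1.1 = c ∧ b d = a) → ∀ s, 0 < s → s ≤ 1 →
        (f (epath d (s / 2)) = y ↔ g d s = z) := by
      intro d hd s h0 h1
      obtain ⟨h2, h3⟩ := hgpos d hd s h0 h1
      constructor
      · intro h
        show (f (epath d (s / 2))).1 c = z
        rw [h, hyc]
      · intro h
        obtain ⟨-, h4, -⟩ := supp_pair (f (epath d (s / 2))).2 hac.ne h3 h2
        apply Subtype.ext
        rw [h4]
        show pt a c (g d s) = pt a c z
        rw [h]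
    let S : Dt G → Set ℝ := fun d => {s | 0 < s ∧ s < 1 ∧ f (epath d (s / 2)) = y}
    -- equivalence
    have hbij : Function.Bijective (fun p : (Σ d, S d) => (⟨epath p.1 (p.2.1 / 2), p.2.2.2.2⟩ :
        ↥(f ⁻¹' {y}))) := by
      constructor
      · rintro ⟨d, s, hs⟩ ⟨d', s', hs'⟩ h
        have h1 := congrArg Subtype.val h
        simp only at h1
        obtain ⟨rfl, rfl⟩ := epath_half_inj hs.1 hs.2.1 hs'.1 hs'.2.1 h1
        rfl
      · rintro ⟨x, hx⟩
        have hxy : f x = y := hx
        obtain ⟨d, s, h0, h1, rfl⟩ := exists_hp' (x := x) (fun w h => hyv (φ w) (by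
          rw [← hxy, h, hφ]))
        have hd := hover d s h0 h1 hxy
        have hs1 : s ≠ 1 := by
          rintro rfl
          have h2 := (hiff d hd 1 one_pos le_rfl).1 hxy
          rcases hd with hd | hd
          · have := he1 d hd
            have := hε d
            linarith
          · have := he2 d hd 1 zero_le_one le_rfl
            have := hε d
            linarith
        exact ⟨⟨d, s, h0, lt_of_le_of_ne h1 hs1, hxy⟩, rfl⟩
    have hfin : (f ⁻¹' {y}).Finite := Set.finite_of_ncard_pos (by rw [hfib]; omega)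
    have : Finite ↥(f ⁻¹' {y}) := hfin
    have hfinS : Finite (Σ d, S d) := Finite.of_injective _ hbij.1
    have hfinSd : ∀ d, Finite (S d) := fun d =>
      Finite.of_injective (fun s : S d => (⟨d, s⟩ : Σ d, S d)) (fun s s' h => by simpa using h)
    have : Fintype (Dt G) := Fintype.ofFinite _
    refine ⟨fun d => (S d).ncard, ?_, ?_, ?_⟩
    · rw [finsum_eq_sum_of_fintype]
      have h1 : Nat.card (Σ d, S d) = k := by
        rw [Nat.card_congr (Equiv.ofBijective _ hbij), Nat.card_coe_set_eq, hfib]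
      rw [Nat.card_sigma] at h1
      rw [← h1]
      exact Finset.sum_congr rfl fun d _ => (Nat.card_coe_set_eq _).symm
    · intro d hd
      have hSd : (S d).Finite := hfinSd d
      have hpar := parity hSd.toFinset.card (fun s => g d s - z) 0 1 hSd.toFinset zero_lt_one
        ((hg d).sub continuous_const).continuousOn
        (by rw [hg0 d hd.1]; linarith)
        (by have := he1 d hd; have := hε d; intro h; linarith)
        (by
          intro t
          rw [Set.Finite.mem_toFinset]
          constructor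
          · rintro ⟨h0, h1, h2⟩
            exact ⟨h0, h1, by rw [(hiff d (Or.inl hd) t h0 h1.le).1 h2]; ring⟩
          · rintro ⟨h0, h1, h2⟩
            exact ⟨h0, h1, (hiff d (Or.inl hd) t h0 h1.le).2 (by linarith)⟩)
        rfl (by
          intro t ht hext
          rw [Set.Finite.mem_toFinset] at ht
          refine hz d t ?_ ((hiff d (Or.inl hd) t ht.1 ht.2.1.le).1 ht.2.2)
          rcases hext with hext | hext
          · left
            have h1 : ∀ᶠ x in nhds t, g d t - z ≤ g d x - z := hext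
            show ∀ᶠ x in nhds t, g d t ≤ g d x
            filter_upwards [h1] with x hx
            linarith
          · right
            have h1 : ∀ᶠ x in nhds t, g d x - z ≤ g d t - z := hext
            show ∀ᶠ x in nhds t, g d x ≤ g d t
            filter_upwards [h1] with x hx
            linarith)
      have h1 : Odd hSd.toFinset.card := by
        rw [hpar, hg0 d hd.1]
        have h2 := he1 d hd
        have h3 := hε d
        nlinarith
      rw [Nat.odd_iff] at h1
      show (S d).ncard % 2 = 1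
      rwa [Set.ncard_eq_toFinset_card _ hSd]
    · intro d hd
      have : S d = ∅ := by
        ext s
        simp only [Set.mem_empty_iff_false, iff_false]
        rintro ⟨h0, h1, h2⟩
        rcases hover d s h0 h1.le h2 with h3 | h3
        · exact hd h3
        · have h4 := (hiff d (Or.inr h3) s h0 h1.le).1 h2
          have h5 := he2 d h3 s h0.le h1.le
          have h6 := hε d
          linarith
      show (S d).ncard = 0
      rw [this, Set.ncard_empty]
  have : Fintype (Dt G) := Fintype.ofFinite _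
  have count' : ∀ a c, H.Adj a c → 1 ≤ {d : Dt G | φ d.1.1 = a ∧ b d = c}.ncard ∧
      {d : Dt G | φ d.1.1 = a ∧ b d = c}.ncard ≤ k ∧
      {d : Dt G | φ d.1.1 = a ∧ b d = c}.ncard % 2 = k % 2 := by
    intro a c hac
    obtain ⟨N, h1, h2, h3⟩ := count a c hac
    rw [finsum_eq_sum_of_fintype] at h1
    have hT : {d : Dt G | φ d.1.1 = a ∧ b d = c}.ncard =
        (Finset.univ.filter fun d : Dt G => φ d.1.1 = a ∧ b d = c).card := by
      rw [← Set.ncard_coe_finset]
      congr 1
      ext d
      simp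
    set T := Finset.univ.filter fun d : Dt G => φ d.1.1 = a ∧ b d = c with hTdef
    have h4 : ∑ d ∈ T, N d = k := by
      rw [← h1]
      refine Finset.sum_subset (Finset.subset_univ _) fun d _ hd => h3 d fun h => hd ?_
      rw [hTdef, Finset.mem_filter]
      exact ⟨Finset.mem_univ _, h⟩
    have h5 : ∀ d ∈ T, N d % 2 = 1 := fun d hd => h2 d (Finset.mem_filter.1 hd).2
    rw [hT]
    refine ⟨?_, ?_, ?_⟩
    · by_contra hcon
      have h6 : T = ∅ := Finset.card_eq_zero.1 (by omega)
      rw [h6, Finset.sum_empty] at h4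
      omega
    · calc T.card = ∑ d ∈ T, 1 := by simp
        _ ≤ ∑ d ∈ T, N d := Finset.sum_le_sum fun d hd => by have := h5 d hd; omega
        _ = k := h4
    · rw [← h4, Finset.sum_nat_mod, Finset.sum_congr rfl h5]
      simp
  refine ⟨b, hb1, ?_, ?_, ?_, fun a c h => (count' a c h).1, fun a c h => (count' a c h).2.1,
    fun a c h => (count' a c h).2.2⟩
  · intro d hd
    rcases hb2 d with h | h
    · exact absurd h.symm hd
    · exact h.symm
  · intro u v h huv
    have h1 := hb3 ⟨(v, u), h.symm⟩ (1 / 2) (by norm_num) (by norm_num)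
    have h2 := hb3 ⟨(u, v), h⟩ (1 / 2) (by norm_num) (by norm_num)
    have h3 := epath_symm h (1 / 2) (by norm_num) (by norm_num)
    rw [show (1 : ℝ) - 1 / 2 = 1 / 2 by norm_num] at h3
    rw [h3] at h1
    simp only at h1 h2
    obtain ⟨-, -, h4⟩ := supp_pair (f (epath ⟨(u, v), h⟩ (1 / 2))).2
      (hb1 ⟨(u, v), h⟩).ne h2.1 h2.2
    rcases h4 _ h1.2 with h5 | h5
    · exact absurd (h5.trans huv).symm (hb1 ⟨(v, u), h.symm⟩).ne
    · exact h5
  · intro a
    have h1 : f ⁻¹' {vert H a} = vert G '' {v | φ v = a} := by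
      ext x
      simp only [Set.mem_preimage, Set.mem_singleton_iff, Set.mem_image, Set.mem_ofPred_eq]
      constructor
      · intro h
        obtain ⟨v, rfl⟩ := hv x a h
        rw [hφ] at h
        exact ⟨v, vert_injective H h, rfl⟩
      · rintro ⟨v, rfl, rfl⟩
        exact hφ v
    rw [← hfib (vert H a), h1, Set.ncard_image_of_injective _ (vert_injective G)]

end main

end Pool.Agent.R797.KT
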