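import Pool.Agent.R797.KT.Basic

set_option autoImplicit false

namespace Pool.Agent.R797.KT

open Classical

variable {V : Type}

theorem carrier_nonneg {G : SimpleGraph V} {x : V → ℝ} (hx : x ∈ carrier G) (w : V) :
    0 ≤ x w := by
  obtain ⟨u, v, -, t, h0, h1, rfl⟩ := hx
  rw [pt_apply]
  have : (0 : ℝ) ≤ 1 - t := by linarith
  split_ifs <;> simp <;> linarith

/-- the linear map realizing the subdivision of `uv` at the point `pt u v s` -/
noncomputable def sdTo (u v : V) (s : ℝ) (x : Option V → ℝ) : V → ℝ :=
  fun w => x (some w) + x none * pt u v s w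

/-- the new coordinate -/
noncomputable def sdM (u v : V) (s : ℝ) (y : V → ℝ) : ℝ := min (y u / (1 - s)) (y v / s)

/-- the inverse of `sdTo` on the carrier -/
noncomputable def sdInv (u v : V) (s : ℝ) (y : V → ℝ) : Option V → ℝ
  | none => sdM u v s y
  | some w => y w - sdM u v s y * pt u v s w

theorem continuous_sdTo (u v : V) (s : ℝ) : Continuous (sdTo u v s) := by
  refine continuous_pi fun w => ?_
  unfold sdTo
  fun_prop

theorem continuous_sdM (u v : V) (s : ℝ) : Continuous (sdM u v s) := by
  unfold sdM
  exact ((continuous_apply u).div_const _).min ((continuous_apply v).div_const _)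

theorem continuous_sdInv (u v : V) (s : ℝ) : Continuous (sdInv u v s) := by
  refine continuous_pi fun w => ?_
  cases w with
  | none => exact continuous_sdM u v s
  | some w =>
    show Continuous fun y : V → ℝ => y w - sdM u v s y * pt u v s w
    exact (continuous_apply w).sub ((continuous_sdM u v s).mul continuous_const)

theorem sdTo_sdInv (u v : V) (s : ℝ) (y : V → ℝ) : sdTo u v s (sdInv u v s y) = y := by
  funext w
  simp only [sdTo, sdInv]
  ring

theorem sdTo_some_some (u v a b : V) (s t : ℝ) :
    sdTo u v s (pt (some a) (some b) t) = pt a b t := by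
  funext w
  simp [sdTo, pt_apply]

theorem sdTo_some_none (u v a : V) (s t : ℝ) :
    sdTo u v s (pt (some a) none t) = fun w => (1 - t) * (if w = a then 1 else 0) +
      t * pt u v s w := by
  funext w
  simp [sdTo, pt_apply]

theorem sdTo_u_none {u v : V} (s t : ℝ) :
    sdTo u v s (pt (some u) none t) = pt u v (t * s) := by
  rw [sdTo_some_none]
  funext w
  simp only [pt_apply]
  ring

theorem sdTo_v_none {u v : V} (s t : ℝ) :
    sdTo u v s (pt (some v) none t) = pt u v (1 - t + t * s) := by
  rw [sdTo_some_none]
  funext w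
  simp only [pt_apply]
  ring

theorem sdTo_none_none {u v : V} (s t : ℝ) :
    sdTo u v s (pt none none t) = pt u v s := by
  funext w
  simp [sdTo, pt_apply]

theorem sdTo_mem {G : SimpleGraph V} {u v : V} (h : G.Adj u v) {s : ℝ} (h0 : 0 < s) (h1 : s < 1)
    {x : Option V → ℝ} (hx : x ∈ carrier (subdivide G u v)) : sdTo u v s x ∈ carrier G := by
  obtain ⟨a, b, hab, t, ht0, ht1, rfl⟩ := hx
  have key : ∀ (a : V) (t : ℝ), (a = u ∨ a = v) → 0 ≤ t → t ≤ 1 →
      sdTo u v s (pt (some a) none t) ∈ carrier G := by
    intro a t ha ht0 ht1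
    rcases ha with rfl | rfl
    · rw [sdTo_u_none]
      exact pt_mem (Or.inr h) (by positivity) (by nlinarith)
    · rw [sdTo_v_none]
      have h2 : 0 ≤ t * s := by positivity
      exact pt_mem (Or.inr h) (by linarith) (by nlinarith)
  rcases hab with rfl | hab
  · cases a with
    | none =>
      rw [sdTo_none_none]
      exact pt_mem (Or.inr h) h0.le h1.le
    | some a =>
      rw [sdTo_some_some]
      exact pt_mem (Or.inl rfl) ht0 ht1
  · match a, b, hab with
    | some a, some b, hab =>
      rw [sdTo_some_some]
      exact pt_mem (Or.inr hab.1) ht0 ht1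
    | some a, none, hab => exact key a t hab ht0 ht1
    | none, some b, hab =>
      rw [pt_symm]
      exact key b _ hab (by linarith) (by linarith)
    | none, none, hab => exact absurd hab (fun h => h)

theorem sdInv_of_zero {u v : V} {s : ℝ} {y : V → ℝ} (hm : sdM u v s y = 0) :
    sdInv u v s y = fun w => match w with
      | none => 0
      | some w => y w := by
  funext w
  cases w with
  | none => exact hm
  | some w => simp [sdInv, hm]

theorem sdInv_pt_of_zero {u v a b : V} {s t : ℝ} (hm : sdM u v s (pt a b t) = 0) :
    sdInv u v s (pt a b t) = pt (some a) (some b) t := by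
  rw [sdInv_of_zero hm]
  funext w
  cases w with
  | none => simp [pt_apply]
  | some w => simp [pt_apply]

theorem sdM_zero {u v : V} {s : ℝ} (h0 : 0 < s) (h1 : s < 1) {y : V → ℝ} (hu : 0 ≤ y u)
    (hv : 0 ≤ y v) (h : y u = 0 ∨ y v = 0) : sdM u v s y = 0 := by
  unfold sdM
  have h2 : 0 < 1 - s := by linarith
  rcases h with h | h
  · rw [h, zero_div]
    exact min_eq_left (div_nonneg hv h0.le)
  · rw [h, zero_div]
    exact min_eq_right (div_nonneg hu h2.le)

theorem sdInv_pt_uv {u v : V} (huv : u ≠ v) {s t : ℝ} (h0 : 0 < s) (h1 : s < 1) (_ht0 : 0 ≤ t)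
    (_ht1 : t ≤ 1) : (t ≤ s → sdInv u v s (pt u v t) = pt (some u) none (t / s)) ∧
      (s ≤ t → sdInv u v s (pt u v t) = pt (some v) none ((1 - t) / (1 - s))) := by
  have h2 : 0 < 1 - s := by linarith
  have e1 : sdM u v s (pt u v t) = min ((1 - t) / (1 - s)) (t / s) := by
    unfold sdM
    rw [pt_left huv, pt_right huv]
  constructor
  · intro hts
    have e2 : sdM u v s (pt u v t) = t / s := by
      rw [e1]
      apply min_eq_right
      have h3 : t / s ≤ 1 := (div_le_one h0).2 hts
      have h4 : 1 ≤ (1 - t) / (1 - s) := (one_le_div h2).2 (by linarith)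
      linarith
    funext w
    cases w with
    | none => simp [sdInv, e2, pt_apply]
    | some w =>
      simp only [sdInv, e2, pt_apply, Option.some.injEq, reduceCtorEq, if_false]
      by_cases hwu : w = u
      · subst hwu
        simp only [if_true, if_neg huv]
        field_simp
        ring
      · by_cases hwv : w = v
        · subst hwv
          simp only [if_true, if_neg hwu]
          field_simp
          ring
        · simp [hwu, hwv]
  · intro hts
    have e2 : sdM u v s (pt u v t) = (1 - t) / (1 - s) := by
      rw [e1]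
      apply min_eq_left
      have h3 : 1 ≤ t / s := (one_le_div h0).2 hts
      have h4 : (1 - t) / (1 - s) ≤ 1 := (div_le_one h2).2 (by linarith)
      linarith
    have h2' : 1 - s ≠ 0 := h2.ne'
    funext w
    cases w with
    | none => simp [sdInv, e2, pt_apply]
    | some w =>
      simp only [sdInv, e2, pt_apply, Option.some.injEq, reduceCtorEq, if_false]
      by_cases hwu : w = u
      · subst hwu
        simp only [if_true, if_neg huv]
        field_simp
        ring
      · by_cases hwv : w = v
        · subst hwv
          simp only [if_true, if_neg hwu]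
          field_simp
          ring
        · simp [hwu, hwv]

theorem sdInv_mem {G : SimpleGraph V} {u v : V} (h : G.Adj u v) {s : ℝ} (h0 : 0 < s)
    (h1 : s < 1) {y : V → ℝ} (hy : y ∈ carrier G) :
    sdInv u v s y ∈ carrier (subdivide G u v) := by
  have hnn := carrier_nonneg hy
  obtain ⟨a, b, hab, t, ht0, ht1, rfl⟩ := hy
  have h2 : 0 < 1 - s := by linarith
  have key : ∀ t : ℝ, 0 ≤ t → t ≤ 1 → sdInv u v s (pt u v t) ∈ carrier (subdivide G u v) := by
    intro t ht0 ht1
    obtain ⟨k1, k2⟩ := sdInv_pt_uv h.ne h0 h1 ht0 ht1
    rcases le_total t s with hts | hts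
    · rw [k1 hts]
      exact pt_mem (Or.inr (Or.inl rfl)) (by positivity) ((div_le_one h0).2 hts)
    · rw [k2 hts]
      exact pt_mem (Or.inr (Or.inr rfl)) (div_nonneg (by linarith) h2.le)
        ((div_le_one h2).2 (by linarith))
  by_cases hc : (a = u ∧ b = v) ∨ (a = v ∧ b = u)
  · rcases hc with ⟨rfl, rfl⟩ | ⟨rfl, rfl⟩
    · exact key t ht0 ht1
    · rw [pt_symm]
      exact key _ (by linarith) (by linarith)
  · push Not at hc
    have hz : pt a b t u = 0 ∨ pt a b t v = 0 := by
      by_contra hcon
      push Not at hcon
      have hu : u = a ∨ u = b := by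
        by_contra h'
        push Not at h'
        exact hcon.1 (pt_other h'.1 h'.2 t)
      have hv : v = a ∨ v = b := by
        by_contra h'
        push Not at h'
        exact hcon.2 (pt_other h'.1 h'.2 t)
      rcases hu with rfl | rfl
      · rcases hv with rfl | rfl
        · exact h.ne rfl
        · exact hc.1 rfl rfl
      · rcases hv with rfl | rfl
        · exact hc.2 rfl rfl
        · exact h.ne rfl
    rw [sdInv_pt_of_zero (sdM_zero h0 h1 (hnn u) (hnn v) hz)]
    refine pt_mem ?_ ht0 ht1
    rcases hab with rfl | hab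
    · exact Or.inl rfl
    · exact Or.inr ⟨hab, fun h' => hc.1 h'.1 h'.2, fun h' => hc.2 h'.1 h'.2⟩

theorem sdInv_sdTo {G : SimpleGraph V} {u v : V} (h : G.Adj u v) {s : ℝ} (h0 : 0 < s)
    (h1 : s < 1) {x : Option V → ℝ} (hx : x ∈ carrier (subdivide G u v)) :
    sdInv u v s (sdTo u v s x) = x := by
  have hnn := carrier_nonneg hx
  have h2 : 0 < 1 - s := by linarith
  have hz : x (some u) = 0 ∨ x (some v) = 0 := by
    obtain ⟨a, b, hab, t, ht0, ht1, rfl⟩ := hx
    by_contra hcon
    push Not at hcon
    have hu : some u = a ∨ some u = b := by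
      by_contra h'
      push Not at h'
      exact hcon.1 (pt_other h'.1 h'.2 t)
    have hv : some v = a ∨ some v = b := by
      by_contra h'
      push Not at h'
      exact hcon.2 (pt_other h'.1 h'.2 t)
    have huv : (some u : Option V) ≠ some v := fun h' => h.ne (Option.some_injective _ h')
    rcases hu with rfl | rfl
    · rcases hv with hv | rfl
      · exact huv hv.symm
      · rcases hab with hab | hab
        · exact huv hab
        · exact hab.2.1 ⟨rfl, rfl⟩
    · rcases hv with rfl | hv
      · rcases hab with hab | hab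
        · exact huv hab.symm
        · exact hab.2.2 ⟨rfl, rfl⟩
      · exact huv hv.symm
  have e1 : sdM u v s (sdTo u v s x) = x none := by
    unfold sdM sdTo
    rw [pt_left h.ne, pt_right h.ne, add_div, add_div, mul_div_cancel_right₀ _ h2.ne',
      mul_div_cancel_right₀ _ h0.ne', min_add_add_right]
    rcases hz with hz | hz
    · rw [hz, zero_div, min_eq_left (div_nonneg (hnn _) h0.le), zero_add]
    · rw [hz, zero_div, min_eq_right (div_nonneg (hnn _) h2.le), zero_add]
  funext w
  cases w with
  | none => exact e1
  | some w =>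
    show sdTo u v s x w - sdM u v s (sdTo u v s x) * pt u v s w = x (some w)
    rw [e1]
    unfold sdTo
    ring

/-- the homeomorphism between the carriers given by a subdivision -/
noncomputable def sdHomeo {G : SimpleGraph V} {u v : V} (h : G.Adj u v) {s : ℝ} (h0 : 0 < s)
    (h1 : s < 1) : carrier (subdivide G u v) ≃ₜ carrier G where
  toFun x := ⟨sdTo u v s x.1, sdTo_mem h h0 h1 x.2⟩
  invFun y := ⟨sdInv u v s y.1, sdInv_mem h h0 h1 y.2⟩
  left_inv x := Subtype.ext (sdInv_sdTo h h0 h1 x.2)
  right_inv y := Subtype.ext (sdTo_sdInv u v s y.1)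
  continuous_toFun := ((continuous_sdTo u v s).comp continuous_subtype_val).subtype_mk _
  continuous_invFun := ((continuous_sdInv u v s).comp continuous_subtype_val).subtype_mk _

/-- the homeomorphism of the carriers given by an isomorphism of graphs -/
noncomputable def isoHomeo {V' : Type} {G : SimpleGraph V} {G' : SimpleGraph V'} (e : G ≃g G') :
    carrier G' ≃ₜ carrier G where
  toFun x := ⟨fun w => x.1 (e w), by
    obtain ⟨a, b, hab, t, ht0, ht1, hx⟩ := x.2
    refine ⟨e.symm a, e.symm b, ?_, t, ht0, ht1, ?_⟩
    · rcases hab with hab | hab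
      · exact Or.inl (by rw [hab])
      · exact Or.inr (e.symm.map_adj_iff.2 hab)
    · funext w
      rw [hx]
      simp only [pt_apply]
      have h1 : ∀ c, (e w = c) ↔ (w = e.symm c) := fun c => by
        constructor
        · rintro rfl
          simp
        · rintro rfl
          simp
      simp only [h1]⟩
  invFun y := ⟨fun w => y.1 (e.symm w), by
    obtain ⟨a, b, hab, t, ht0, ht1, hx⟩ := y.2
    refine ⟨e a, e b, ?_, t, ht0, ht1, ?_⟩
    · rcases hab with hab | hab
      · exact Or.inl (by rw [hab])
      · exact Or.inr (e.map_adj_iff.2 hab)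
    · funext w
      rw [hx]
      simp only [pt_apply]
      have h1 : ∀ c, (e.symm w = c) ↔ (w = e c) := fun c => by
        constructor
        · rintro rfl
          simp
        · rintro rfl
          simp
      simp only [h1]⟩
  left_inv x := by
    apply Subtype.ext
    funext w
    simp
  right_inv y := by
    apply Subtype.ext
    funext w
    simp
  continuous_toFun := by
    refine Continuous.subtype_mk (continuous_pi fun w => ?_) _
    exact (continuous_apply _).comp continuous_subtype_val
  continuous_invFun := by
    refine Continuous.subtype_mk (continuous_pi fun w => ?_) _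
    exact (continuous_apply _).comp continuous_subtype_val

/-- The carrier of a subdivision is homeomorphic to the carrier of the graph. -/
theorem IsSubdivision.homeo {n : ℕ} {V V' : Type} {G : SimpleGraph V} {G' : SimpleGraph V'}
    (h : IsSubdivision n V G V' G') : Nonempty (carrier G' ≃ₜ carrier G) := by
  induction h with
  | iso e => exact ⟨isoHomeo e⟩
  | step u v h h' ih =>
    obtain ⟨f⟩ := ih
    exact ⟨f.trans (sdHomeo h (s := 1 / 2) (by norm_num) (by norm_num))⟩

theorem IsSubdivision.finite {n : ℕ} {V V' : Type} {G : SimpleGraph V} {G' : SimpleGraph V'}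
    (h : IsSubdivision n V G V' G') : Finite V → Finite V' ∧ Nat.card V' = Nat.card V + n := by
  induction h with
  | iso e =>
    intro hV
    exact ⟨Finite.of_equiv _ e.toEquiv, by rw [add_zero]; exact (Nat.card_congr e.toEquiv).symm⟩
  | step u v h h' ih =>
    intro hV
    obtain ⟨h1, h2⟩ := ih inferInstance
    refine ⟨h1, ?_⟩
    rw [h2, Finite.card_option]
    ring

theorem IsSubdivision.noIsolated {n : ℕ} {V V' : Type} {G : SimpleGraph V} {G' : SimpleGraph V'}
    (h : IsSubdivision n V G V' G') : (∀ v, ∃ w, G.Adj v w) → ∀ v, ∃ w, G'.Adj v w := by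
  induction h with
  | iso e =>
    intro hV v
    obtain ⟨w, hw⟩ := hV (e.symm v)
    exact ⟨e w, by simpa using e.map_adj_iff.2 hw⟩
  | @step V V' G G' n u v h h' ih =>
    intro hV
    refine ih ?_
    intro x
    cases x with
    | none => exact ⟨some u, Or.inl rfl⟩
    | some x =>
      by_cases hx : x = u ∨ x = v
      · exact ⟨none, hx⟩
      · push Not at hx
        obtain ⟨w, hw⟩ := hV x
        exact ⟨some w, hw, fun h' => hx.1 h'.1, fun h' => hx.2 h'.1⟩

theorem sdHomeo_none {G : SimpleGraph V} {u v : V} (h : G.Adj u v) {s : ℝ} (h0 : 0 < s)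
    (h1 : s < 1) : (sdHomeo h h0 h1 (vert _ none)).1 = pt u v s :=
  sdTo_none_none s 0

theorem sdHomeo_some {G : SimpleGraph V} {u v : V} (h : G.Adj u v) {s : ℝ} (h0 : 0 < s)
    (h1 : s < 1) (w : V) : sdHomeo h h0 h1 (vert _ (some w)) = vert G w :=
  Subtype.ext (sdTo_some_some u v w w s 0)

/-- Every finite set of points which contains the vertices is the set of vertices of a
subdivision. -/
theorem exists_subdivision (n : ℕ) : ∀ (V : Type) [Finite V] (G : SimpleGraph V)
    (F : Set (carrier G)), F.Finite → (∀ v, vert G v ∈ F) → F.ncard = Nat.card V + n →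
    ∃ (V' : Type) (G' : SimpleGraph V') (f : carrier G' ≃ₜ carrier G),
      IsSubdivision n V G V' G' ∧ ∀ x, f x ∈ F ↔ ∃ v, x = vert G' v := by
  induction n with
  | zero =>
    intro V _ G F hF hv hcard
    refine ⟨V, G, Homeomorph.refl _, IsSubdivision.iso (RelIso.refl _), fun x => ?_⟩
    have h1 : Set.range (vert G) ⊆ F := by
      rintro _ ⟨v, rfl⟩
      exact hv v
    have h2 : (Set.range (vert G)).ncard = Nat.card V := by
      rw [← Set.image_univ, Set.ncard_image_of_injective _ (vert_injective G), Set.ncard_univ]
    have h3 : Set.range (vert G) = F := by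
      refine Set.eq_of_subset_of_ncard_le h1 ?_ hF
      rw [h2, hcard, add_zero]
    show x ∈ F ↔ _
    rw [← h3]
    constructor
    · rintro ⟨v, rfl⟩
      exact ⟨v, rfl⟩
    · rintro ⟨v, rfl⟩
      exact ⟨v, rfl⟩
  | succ n ih =>
    intro V _ G F hF hv hcard
    obtain ⟨p, hpF, hp⟩ : ∃ p ∈ F, p ∉ Set.range (vert G) := by
      by_contra hcon
      push Not at hcon
      have h1 : F ⊆ Set.range (vert G) := hcon
      have h2 : (Set.range (vert G)).ncard = Nat.card V := by
        rw [← Set.image_univ, Set.ncard_image_of_injective _ (vert_injective G), Set.ncard_univ]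
      have := Set.ncard_le_ncard h1 (Set.finite_range _)
      omega
    obtain ⟨u, v, huv, s, hs0, hs1, hps⟩ : p.1 ∈ carrier G := p.2
    have hs0' : s ≠ 0 := by
      rintro rfl
      exact hp ⟨u, Subtype.ext (by rw [hps, pt_zero]; rfl)⟩
    have hs1' : s ≠ 1 := by
      rintro rfl
      exact hp ⟨v, Subtype.ext (by rw [hps, pt_one]; rfl)⟩
    have huv' : G.Adj u v := by
      rcases huv with rfl | huv
      · exact absurd ⟨u, Subtype.ext (by rw [hps, pt_self]; rfl)⟩ hp
      · exact huv
    have h0 : 0 < s := lt_of_le_of_ne hs0 (Ne.symm hs0')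
    have h1 : s < 1 := lt_of_le_of_ne hs1 hs1'
    let g := sdHomeo huv' h0 h1
    have hg1 : g (vert _ none) = p := Subtype.ext ((sdHomeo_none huv' h0 h1).trans hps.symm)
    obtain ⟨V', G', f, hsub, hf⟩ := ih (Option V) (subdivide G u v) (g ⁻¹' F)
      (hF.preimage g.injective.injOn) (by
        intro w
        cases w with
        | none =>
          show g _ ∈ F
          rw [hg1]
          exact hpF
        | some w =>
          show g _ ∈ F
          rw [show g (vert _ (some w)) = vert G w from sdHomeo_some huv' h0 h1 w]
          exact hv w) (by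
        have : (g ⁻¹' F).ncard = F.ncard :=
          Set.ncard_preimage_of_injective_subset_range g.injective (by
            rw [g.surjective.range_eq]
            exact Set.subset_univ _)
        rw [this, hcard, Finite.card_option]
        ring)
    exact ⟨V', G', f.trans g, IsSubdivision.step u v huv' hsub, fun x => hf x⟩

end Pool.Agent.R797.KT
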