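import Pool.Agent.R797.KT.Necess
import Pool.Agent.R797.KT.Gadget

set_option autoImplicit false

/-! Sufficiency: a `k`-to-1 map constructed from the data. -/

namespace Pool.Agent.R797.KT

open Classical

variable {V W : Type}

/-- the half-edge point, clamped -/
noncomputable def hpt {G : SimpleGraph V} (d : Dt G) (s : ℝ) : carrier G := epath d (s / 2)

theorem hpt_val {G : SimpleGraph V} (d : Dt G) {s : ℝ} (h0 : 0 ≤ s) (h1 : s ≤ 1) :
    (hpt d s).1 = hp d.1.1 d.1.2 s := by
  show pt _ _ (clamp (s / 2)) = pt _ _ (s / 2)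
  rw [clamp_of_mem (by linarith) (by linarith)]

theorem continuous_hpt {G : SimpleGraph V} (d : Dt G) : Continuous (hpt d) :=
  (continuous_epath d).comp (continuous_id.div_const 2)

theorem hpt_zero {G : SimpleGraph V} (d : Dt G) : hpt d 0 = vert G d.1.1 := by
  unfold hpt
  rw [zero_div, epath_zero]

theorem hpt_unique {G : SimpleGraph V} {d d' : Dt G} {s s' : ℝ} (h0 : 0 < s) (h1 : s < 1)
    (h0' : 0 ≤ s') (h1' : s' ≤ 1) (h : hpt d s = hpt d' s') : d = d' ∧ s = s' := by
  have h2 := congrArg Subtype.val h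
  rw [hpt_val d h0.le h1.le, hpt_val d' h0' h1'] at h2
  exact hp_unique h0 h1 h0' h1' h2

theorem hpt_vert {G : SimpleGraph V} {d : Dt G} {s : ℝ} (h0 : 0 ≤ s) (h1 : s ≤ 1) {u : V}
    (h : hpt d s = vert G u) : s = 0 ∧ d.1.1 = u := by
  have h2 := congrArg Subtype.val h
  rw [hpt_val d h0 h1] at h2
  exact hp_eq_vert h0 h1 h2

theorem hpt_mid {G : SimpleGraph V} {d d' : Dt G} {s' : ℝ}
    (h0' : 0 ≤ s') (h1' : s' ≤ 1) (h : hpt d 1 = hpt d' s') :
    s' = 1 ∧ (d' = d ∨ d' = ⟨(d.1.2, d.1.1), d.2.symm⟩) := by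
  have h2 := congrArg Subtype.val h
  rw [hpt_val d zero_le_one le_rfl, hpt_val d' h0' h1'] at h2
  unfold hp at h2
  obtain ⟨⟨u, v⟩, huv⟩ := d
  obtain ⟨⟨u', v'⟩, huv'⟩ := d'
  simp only at h2 huv huv' ⊢
  have e1 : pt u v (1 / 2) u = 1 - 1 / 2 := pt_left huv.ne _
  have e2 : pt u v (1 / 2) v = 1 / 2 := pt_right huv.ne _
  have e3 : pt u' v' (s' / 2) u' = 1 - s' / 2 := pt_left huv'.ne _
  have e4 : pt u' v' (s' / 2) v' = s' / 2 := pt_right huv'.ne _
  have hs0 : 0 < s' := by
    rcases h0'.eq_or_lt with h | h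
    · exfalso
      subst h
      by_cases h3 : u = u'
      · subst h3
        rw [h2, e3] at e1
        norm_num at e1
      · by_cases h4 : u = v'
        · subst h4
          rw [h2, e4] at e1
          norm_num at e1
        · rw [h2, pt_other h3 h4] at e1
          norm_num at e1
    · exact h
  have hu : u' = u ∨ u' = v := by
    by_contra hc
    push Not at hc
    rw [← h2, pt_other hc.1 hc.2] at e3
    linarith
  have hv : v' = u ∨ v' = v := by
    by_contra hc
    push Not at hc
    rw [← h2, pt_other hc.1 hc.2] at e4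
    linarith
  rcases hu with rfl | rfl
  · rcases hv with rfl | rfl
    · exact absurd rfl huv'.ne
    · refine ⟨?_, Or.inl rfl⟩
      rw [← h2, e2] at e4
      linarith
  · rcases hv with rfl | rfl
    · refine ⟨?_, Or.inr rfl⟩
      rw [← h2, e1] at e4
      linarith
    · exact absurd rfl huv'.ne

/-- the wildness function -/
theorem exists_wild [Finite V] {G : SimpleGraph V} {H : SimpleGraph W} {k : ℕ}
    {φ : V → W} {b : Dt G → W} (hD : Data G H k φ b) [Fintype (Dt G)] :
    ∃ w : Dt G → ℕ, ∀ a c, H.Adj a c →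
      ∑ d ∈ Finset.univ.filter (fun d : Dt G => φ d.1.1 = a ∧ b d = c), (2 * w d + 1) = k := by
  have hcard : ∀ a c, {d : Dt G | φ d.1.1 = a ∧ b d = c}.ncard =
      (Finset.univ.filter fun d : Dt G => φ d.1.1 = a ∧ b d = c).card := by
    intro a c
    rw [← Set.ncard_coe_finset]
    congr 1
    ext d
    simp
  have hhost : ∀ a c, ∃ h : Dt G → Prop, (H.Adj a c → ∃ d₀, φ d₀.1.1 = a ∧ b d₀ = c ∧
      ∀ d, h d ↔ d = d₀) := by
    intro a c
    by_cases hac : H.Adj a c
    · have h1 := hD.pos a c hac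
      rw [hcard] at h1
      obtain ⟨d₀, hd₀⟩ := Finset.card_pos.1 (by omega : 0 <
        (Finset.univ.filter fun d : Dt G => φ d.1.1 = a ∧ b d = c).card)
      rw [Finset.mem_filter] at hd₀
      exact ⟨fun d => d = d₀, fun _ => ⟨d₀, hd₀.2.1, hd₀.2.2, fun d => Iff.rfl⟩⟩
    · exact ⟨fun _ => True, fun h => absurd h hac⟩
  choose h hh using hhost
  refine ⟨fun d => if h (φ d.1.1) (b d) d then
    (k - (Finset.univ.filter fun d' : Dt G => φ d'.1.1 = φ d.1.1 ∧ b d' = b d).card) / 2 else 0, ?_⟩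
  intro a c hac
  obtain ⟨d₀, h1, h2, h3⟩ := hh a c hac
  set T := Finset.univ.filter fun d : Dt G => φ d.1.1 = a ∧ b d = c with hT
  have h4 : T.card ≤ k := by rw [hT, ← hcard]; exact hD.le a c hac
  have h5 : T.card % 2 = k % 2 := by rw [hT, ← hcard]; exact hD.par a c hac
  have h6 : ∑ d ∈ T, (if h (φ d.1.1) (b d) d then
      (k - (Finset.univ.filter fun d' : Dt G => φ d'.1.1 = φ d.1.1 ∧ b d' = b d).card) / 2 else 0) =
      (k - T.card) / 2 := by
    rw [Finset.sum_eq_single d₀]
    · rw [h1, h2, if_pos ((h3 d₀).2 rfl)]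
    · intro d hd hne
      have hd' := (Finset.mem_filter.1 hd).2
      rw [hd'.1, hd'.2, if_neg (fun h' => hne ((h3 d).1 h'))]
    · intro hd
      exact absurd (Finset.mem_filter.2 ⟨Finset.mem_univ _, h1, h2⟩) hd
  rw [Finset.sum_add_distrib, ← Finset.mul_sum, h6]
  simp only [Finset.sum_const, smul_eq_mul, mul_one]
  omega

/-- the set of points parametrized by the open half-edges: counting -/
theorem ncard_halves [Finite V] {G : SimpleGraph V} [Fintype (Dt G)] (S : Dt G → Set ℝ)
    (hS : ∀ d, ∀ s ∈ S d, 0 < s ∧ s < 1) (hfin : ∀ d, (S d).Finite) :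
    {x : carrier G | ∃ d, ∃ s ∈ S d, x = hpt d s}.Finite ∧
    {x : carrier G | ∃ d, ∃ s ∈ S d, x = hpt d s}.ncard = ∑ d, (S d).ncard := by
  have hbij : Function.Bijective (fun p : (Σ d, S d) => (⟨hpt p.1 p.2.1, p.1, p.2.1, p.2.2, rfl⟩ :
      ↥({x : carrier G | ∃ d, ∃ s ∈ S d, x = hpt d s}))) := by
    constructor
    · rintro ⟨d, s, hs⟩ ⟨d', s', hs'⟩ h
      have h1 := congrArg Subtype.val h
      simp only at h1
      obtain ⟨a1, a2⟩ := hS d s hs
      obtain ⟨a3, a4⟩ := hS d' s' hs'
      obtain ⟨rfl, rfl⟩ := hpt_unique a1 a2 a3.le a4.le h1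
      rfl
    · rintro ⟨x, d, s, hs, rfl⟩
      exact ⟨⟨d, s, hs⟩, rfl⟩
  have : ∀ d, Finite (S d) := fun d => hfin d
  have : Finite (Σ d, S d) := inferInstance
  refine ⟨Set.finite_coe_iff.1 (Finite.of_surjective _ hbij.2), ?_⟩
  rw [← Nat.card_coe_set_eq, ← Nat.card_congr (Equiv.ofBijective _ hbij), Nat.card_sigma]
  exact Finset.sum_congr rfl fun d _ => Nat.card_coe_set_eq _

/-- reversal of an oriented edge -/
def rev {G : SimpleGraph V} (d : Dt G) : Dt G := ⟨(d.1.2, d.1.1), d.2.symm⟩

theorem rev_rev {G : SimpleGraph V} (d : Dt G) : rev (rev d) = d := rfl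

theorem rev_ne {G : SimpleGraph V} (d : Dt G) : rev d ≠ d := by
  intro h
  have := congrArg (fun x : Dt G => x.1.1) h
  exact d.2.ne this.symm

theorem hpt_rev_one {G : SimpleGraph V} (d : Dt G) : hpt (rev d) 1 = hpt d 1 := by
  apply Subtype.ext
  rw [hpt_val _ zero_le_one le_rfl, hpt_val _ zero_le_one le_rfl]
  show pt d.1.2 d.1.1 (1 / 2) = pt d.1.1 d.1.2 (1 / 2)
  rw [pt_symm]
  norm_num

theorem sufficiency [Finite V] [Finite W] {G : SimpleGraph V} {H : SimpleGraph W}
    (hG : ∀ v, ∃ w, G.Adj v w) {k : ℕ} {φ : V → W} {b : Dt G → W} (hD : Data G H k φ b) :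
    ∃ f : carrier G → carrier H, Continuous f ∧ (∀ y, (f ⁻¹' {y}).ncard = k) ∧
      (∀ v, f (vert G v) = vert H (φ v)) ∧ ∀ x w, f x = vert H w → ∃ v, x = vert G v := by
  have : Fintype (Dt G) := Fintype.ofFinite _
  obtain ⟨w, hw⟩ := exists_wild hD
  choose P hPc hP0 hP1 hPpos hPcount hPfin1 hPcard1 using gadget
  -- the oriented edge of `H` under an oriented edge of `G`
  let e : Dt G → Dt H := fun d => ⟨(φ d.1.1, b d), hD.adj d⟩
  have hPmem : ∀ n s, 0 ≤ s → s ≤ 1 → 0 ≤ P n s ∧ P n s ≤ 1 := by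
    intro n s h0 h1
    rcases h0.eq_or_lt with rfl | h0
    · rw [hP0]
      exact ⟨le_rfl, zero_le_one⟩
    · exact ⟨(hPpos n s h0 h1).1.le, (hPpos n s h0 h1).2⟩
  let F : Dt G → ℝ → carrier H := fun d s => hpt (e d) (P (w d) s)
  have he_rev : ∀ d, e (rev d) = e d ∨ e (rev d) = rev (e d) := by
    rintro ⟨⟨u, v⟩, huv⟩
    by_cases h : φ u = φ v
    · left
      have h1 := hD.symm u v huv h
      show (⟨(φ v, b ⟨(v, u), huv.symm⟩), _⟩ : Dt H) = ⟨(φ u, b ⟨(u, v), huv⟩), _⟩
      apply Subtype.ext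
      show (φ v, b ⟨(v, u), huv.symm⟩) = (φ u, b ⟨(u, v), huv⟩)
      rw [h1, h]
    · right
      have h1 := hD.cross ⟨(u, v), huv⟩ h
      have h2 := hD.cross ⟨(v, u), huv.symm⟩ (Ne.symm h)
      apply Subtype.ext
      show (φ v, b ⟨(v, u), huv.symm⟩) = (b ⟨(u, v), huv⟩, φ u)
      rw [h1, h2]
  have hwd : ∀ d d' s s', 0 ≤ s → s ≤ 1 → 0 ≤ s' → s' ≤ 1 → hpt d s = hpt d' s' →
      F d s = F d' s' := by
    intro d d' s s' h0 h1 h0' h1' h
    rcases h0.eq_or_lt with rfl | h0
    · rw [hpt_zero] at h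
      obtain ⟨rfl, h2⟩ := hpt_vert h0' h1' h.symm
      show hpt (e d) (P (w d) 0) = hpt (e d') (P (w d') 0)
      rw [hP0, hP0, hpt_zero, hpt_zero]
      show vert H (φ d.1.1) = vert H (φ d'.1.1)
      rw [h2]
    rcases h1.lt_or_eq with h1 | rfl
    · obtain ⟨rfl, rfl⟩ := hpt_unique h0 h1 h0' h1' h
      rfl
    · obtain ⟨rfl, h2⟩ := hpt_mid h0' h1' h
      rcases h2 with rfl | h2
      · rfl
      · have h3 : d' = rev d := h2
        rw [h3]
        show hpt (e d) (P (w d) 1) = hpt (e (rev d)) (P (w (rev d)) 1)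
        rw [hP1, hP1]
        rcases he_rev d with h4 | h4
        · rw [h4]
        · rw [h4, hpt_rev_one]
  have hex : ∀ x : carrier G, ∃ d : Dt G, ∃ s : ℝ, 0 ≤ s ∧ s ≤ 1 ∧ x = hpt d s := by
    intro x
    obtain ⟨d, s, h0, h1, h⟩ := exists_hp hG x.2
    exact ⟨d, s, h0, h1, Subtype.ext (by rw [hpt_val d h0 h1]; exact h)⟩
  choose D S hS0 hS1 hDS using hex
  let f : carrier G → carrier H := fun x => F (D x) (S x)
  have hf : ∀ d s, 0 ≤ s → s ≤ 1 → f (hpt d s) = F d s := by
    intro d s h0 h1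
    exact hwd _ _ _ _ (hS0 _) (hS1 _) h0 h1 (hDS (hpt d s)).symm
  -- continuity
  let π : (Σ _ : Dt G, unitInterval) → carrier G := fun p => hpt p.1 p.2
  have hπc : Continuous π := continuous_sigma fun d =>
    (continuous_hpt d).comp continuous_subtype_val
  have hπs : Function.Surjective π := fun x => ⟨⟨D x, S x, hS0 x, hS1 x⟩, (hDS x).symm⟩
  have hq : Topology.IsQuotientMap π := hπc.isClosedMap.isQuotientMap hπc hπs
  have hfc : Continuous f := by
    rw [hq.continuous_iff]
    refine continuous_sigma fun d => ?_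
    have h1 : (fun s : unitInterval => (f ∘ π) ⟨d, s⟩) =
        fun s : unitInterval => hpt (e d) (P (w d) (s : ℝ)) := by
      funext s
      exact hf d s s.2.1 s.2.2
    show Continuous (fun s : unitInterval => (f ∘ π) ⟨d, s⟩)
    rw [h1]
    have h2 : Continuous (fun s : unitInterval => P (w d) (s : ℝ)) :=
      continuousOn_iff_continuous_restrict.1 (hPc (w d))
    exact (continuous_hpt (e d)).comp h2
  have hfv : ∀ v, f (vert G v) = vert H (φ v) := by
    intro v
    obtain ⟨u, hu⟩ := hG v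
    have h1 := hf ⟨(v, u), hu⟩ 0 le_rfl zero_le_one
    rw [hpt_zero] at h1
    rw [h1]
    show hpt (e ⟨(v, u), hu⟩) (P _ 0) = _
    rw [hP0, hpt_zero]
  have hfv' : ∀ x a, f x = vert H a → ∃ v, x = vert G v ∧ φ v = a := by
    intro x a h
    obtain ⟨d, s, h0, h1, rfl⟩ : ∃ d s, 0 ≤ s ∧ s ≤ 1 ∧ x = hpt d s :=
      ⟨D x, S x, hS0 x, hS1 x, hDS x⟩
    rw [hf d s h0 h1] at h
    obtain ⟨h2, h3⟩ := hpt_vert (hPmem _ s h0 h1).1 (hPmem _ s h0 h1).2 h
    rcases h0.eq_or_lt with rfl | h0
    · exact ⟨d.1.1, hpt_zero d, h3⟩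
    · exact absurd h2 (hPpos (w d) s h0 h1).1.ne'
  refine ⟨f, hfc, ?_, hfv, fun x a h => by
    obtain ⟨v, hv, -⟩ := hfv' x a h
    exact ⟨v, hv⟩⟩
  intro y
  by_cases hyv : ∃ a, y = vert H a
  · obtain ⟨a, rfl⟩ := hyv
    have h1 : f ⁻¹' {vert H a} = vert G '' {v | φ v = a} := by
      ext x
      simp only [Set.mem_preimage, Set.mem_singleton_iff, Set.mem_image, Set.mem_ofPred_eq]
      constructor
      · intro h
        obtain ⟨v, rfl, h2⟩ := hfv' x a h
        exact ⟨v, h2, rfl⟩
      · rintro ⟨v, rfl, rfl⟩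
        exact hfv v
    rw [h1, Set.ncard_image_of_injective _ (vert_injective G), hD.fib]
  · push Not at hyv
    obtain ⟨d₀, r, hr0, hr1, hy⟩ := exists_hp' hyv
    have hy' : y = hpt d₀ r := hy
    have hnv : ∀ x, f x = y → ∃ d s, 0 < s ∧ s ≤ 1 ∧ x = hpt d s := by
      intro x hx
      obtain ⟨d, s, h0, h1, hxe⟩ := exists_hp' (x := x) (fun v h => hyv (φ v) (by
        rw [← hx, h, hfv]))
      exact ⟨d, s, h0, h1, hxe⟩
    set a := d₀.1.1 with ha
    set c := d₀.1.2 with hc
    have hac : H.Adj a c := d₀.2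
    rcases hr1.lt_or_eq with hr1 | rfl
    · -- generic level
      let T : Dt G → Set ℝ := fun d => {s | (φ d.1.1 = a ∧ b d = c) ∧ 0 < s ∧ s < 1 ∧ P (w d) s = r}
      have hset : f ⁻¹' {y} = {x : carrier G | ∃ d, ∃ s ∈ T d, x = hpt d s} := by
        ext x
        simp only [Set.mem_preimage, Set.mem_singleton_iff, Set.mem_ofPred_eq]
        constructor
        · intro hx
          obtain ⟨d, s, h0, h1, rfl⟩ := hnv x hx
          rw [hf d s h0.le h1, hy'] at hx
          obtain ⟨h2, h3⟩ := hpt_unique hr0 hr1 (hPmem _ s h0.le h1).1 (hPmem _ s h0.le h1).2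
            hx.symm
          refine ⟨d, s, ⟨⟨?_, ?_⟩, h0, ?_, h3.symm⟩, rfl⟩
          · rw [ha, h2]
          · rw [hc, h2]
          · rcases h1.lt_or_eq with h1 | rfl
            · exact h1
            · rw [hP1] at h3
              exact absurd h3 hr1.ne
        · rintro ⟨d, s, ⟨⟨h2, h3⟩, h0, h1, h4⟩, rfl⟩
          rw [hf d s h0.le h1.le, hy']
          show hpt (e d) (P (w d) s) = hpt d₀ r
          rw [h4]
          congr 1
          apply Subtype.ext
          show (φ d.1.1, b d) = d₀.1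
          rw [h2, h3]
      have hTfin : ∀ d, (T d).Finite := fun d =>
        (hPcount (w d) r hr0 hr1).1.subset fun s hs => hs.2
      rw [hset, (ncard_halves T (fun d s hs => ⟨hs.2.1, hs.2.2.1⟩) hTfin).2, ← hw a c hac,
        Finset.sum_filter]
      refine Finset.sum_congr rfl fun d _ => ?_
      split_ifs with h
      · rw [← (hPcount (w d) r hr0 hr1).2]
        congr 1
        ext s
        exact ⟨fun hs => hs.2, fun hs => ⟨h, hs⟩⟩
      · have : T d = ∅ := by
          ext s
          exact ⟨fun hs => h hs.1, fun hs => absurd hs (Set.notMem_empty _)⟩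
        rw [this, Set.ncard_empty]
    · -- the middle level
      have hover : ∀ d, (e d = d₀ ∨ e d = rev d₀) ↔
          ((φ d.1.1 = a ∧ b d = c) ∨ (φ d.1.1 = c ∧ b d = a)) := by
        intro d
        constructor
        · rintro (h | h)
          · left
            rw [ha, hc, ← h]
            exact ⟨rfl, rfl⟩
          · right
            have h2 : d₀ = rev (e d) := by rw [h, rev_rev]
            rw [ha, hc, h2]
            exact ⟨rfl, rfl⟩
        · rintro (h | h)
          · left
            apply Subtype.ext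
            show (φ d.1.1, b d) = d₀.1
            rw [h.1, h.2]
          · right
            apply Subtype.ext
            show (φ d.1.1, b d) = (d₀.1.2, d₀.1.1)
            rw [h.1, h.2]
      let T : Dt G → Set ℝ := fun d => {s | (e d = d₀ ∨ e d = rev d₀) ∧ 0 < s ∧ s < 1 ∧
        P (w d) s = 1}
      let O : Finset (Dt G) := Finset.univ.filter fun d => e d = d₀ ∨ e d = rev d₀
      let M : Finset (carrier G) := O.image fun d => hpt d 1
      have hset : f ⁻¹' {y} = {x : carrier G | ∃ d, ∃ s ∈ T d, x = hpt d s} ∪ M := by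
        ext x
        simp only [Set.mem_preimage, Set.mem_singleton_iff, Set.mem_ofPred_eq, Set.mem_union,
          Finset.mem_coe, M, Finset.mem_image, O, Finset.mem_filter, Finset.mem_univ, true_and]
        constructor
        · intro hx
          obtain ⟨d, s, h0, h1, rfl⟩ := hnv x hx
          rw [hf d s h0.le h1, hy'] at hx
          obtain ⟨h2, h3⟩ := hpt_mid (hPmem _ s h0.le h1).1 (hPmem _ s h0.le h1).2 hx.symm
          rcases h1.lt_or_eq with h1 | rfl
          · exact Or.inl ⟨d, s, ⟨h3, h0, h1, h2⟩, rfl⟩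
          · exact Or.inr ⟨d, h3, rfl⟩
        · have key : ∀ d s, 0 ≤ s → s ≤ 1 → (e d = d₀ ∨ e d = rev d₀) → P (w d) s = 1 →
              f (hpt d s) = y := by
            intro d s h0 h1 h2 h3
            rw [hf d s h0 h1, hy']
            show hpt (e d) (P (w d) s) = hpt d₀ 1
            rw [h3]
            rcases h2 with h2 | h2
            · rw [h2]
            · rw [h2, hpt_rev_one]
          rintro (⟨d, s, ⟨h2, h0, h1, h4⟩, rfl⟩ | ⟨d, h2, rfl⟩)
          · exact key d s h0.le h1.le h2 h4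
          · exact key d 1 zero_le_one le_rfl h2 (hP1 _)
      have hTfin : ∀ d, (T d).Finite := fun d => (hPfin1 (w d)).subset fun s hs => hs.2
      obtain ⟨n1, n2⟩ := ncard_halves T (fun d s hs => ⟨hs.2.1, hs.2.2.1⟩) hTfin
      have hdisj : Disjoint {x : carrier G | ∃ d, ∃ s ∈ T d, x = hpt d s} (M : Set (carrier G)) := by
        rw [Set.disjoint_left]
        rintro x ⟨d, s, hs, rfl⟩ hx
        simp only [Finset.mem_coe, M, Finset.mem_image] at hx
        obtain ⟨d', -, h⟩ := hx
        obtain ⟨-, h2⟩ := hpt_unique hs.2.1 hs.2.2.1 zero_le_one le_rfl h.symm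
        exact absurd h2 hs.2.2.1.ne
      have hTcard : ∑ d, (T d).ncard = ∑ d ∈ O, w d := by
        rw [Finset.sum_filter]
        refine Finset.sum_congr rfl fun d _ => ?_
        split_ifs with h
        · rw [← hPcard1 (w d)]
          congr 1
          ext s
          exact ⟨fun hs => hs.2, fun hs => ⟨h, hs⟩⟩
        · have : T d = ∅ := by
            ext s
            exact ⟨fun hs => h hs.1, fun hs => absurd hs (Set.notMem_empty _)⟩
          rw [this, Set.ncard_empty]
      have hrevO : ∀ d, d ∈ O → rev d ∈ O := by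
        intro d hd
        simp only [O, Finset.mem_filter, Finset.mem_univ, true_and] at hd ⊢
        rcases he_rev d with h | h
        · rw [h]
          exact hd
        · rw [h]
          rcases hd with hd | hd
          · right
            rw [hd]
          · left
            rw [hd, rev_rev]
      have hMcard : O.card = 2 * M.card := by
        rw [Finset.card_eq_sum_card_image (fun d => hpt d 1) O, mul_comm]
        refine Finset.sum_const_nat fun x hx => ?_
        obtain ⟨d, hd, rfl⟩ := Finset.mem_image.1 hx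
        have : O.filter (fun d' => hpt d' 1 = hpt d 1) = {d, rev d} := by
          ext d'
          simp only [Finset.mem_filter, Finset.mem_insert, Finset.mem_singleton]
          constructor
          · rintro ⟨-, h⟩
            exact (hpt_mid zero_le_one le_rfl h.symm).2
          · rintro (rfl | rfl)
            · exact ⟨hd, rfl⟩
            · exact ⟨hrevO d hd, hpt_rev_one d⟩
        rw [this, Finset.card_pair (rev_ne d).symm]
      have hO : O = (Finset.univ.filter fun d : Dt G => φ d.1.1 = a ∧ b d = c) ∪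
          (Finset.univ.filter fun d : Dt G => φ d.1.1 = c ∧ b d = a) := by
        ext d
        simp only [O, Finset.mem_filter, Finset.mem_univ, true_and, Finset.mem_union]
        exact hover d
      have hOd : Disjoint (Finset.univ.filter fun d : Dt G => φ d.1.1 = a ∧ b d = c)
          (Finset.univ.filter fun d : Dt G => φ d.1.1 = c ∧ b d = a) := by
        rw [Finset.disjoint_left]
        intro d h1 h2
        rw [Finset.mem_filter] at h1 h2
        exact hac.ne (h1.2.1.symm.trans h2.2.1)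
      have hsum : ∑ d ∈ O, (2 * w d + 1) = k + k := by
        rw [hO, Finset.sum_union hOd, hw a c hac, hw c a hac.symm]
      rw [Finset.sum_add_distrib, ← Finset.mul_sum] at hsum
      simp only [Finset.sum_const, smul_eq_mul, mul_one] at hsum
      rw [hset, Set.ncard_union_eq hdisj n1 (Finset.finite_toSet _), n2, hTcard,
        Set.ncard_coe_finset]
      omega

end Pool.Agent.R797.KT
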